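import Mathlib

/-!
# Tagged finite trees, forcing for infinitary codes, and retagging
-/

set_option autoImplicit false

namespace Pool.Agent.R591.UL

open Set Cardinal
open scoped Ordinal

/-- A condition: a finite tagged tree, given by a finitely supported function on the finite
sequences (newest entry first); the value `0` means outside of the tree; the values decrease from
parents to children. -/
@[ext] structure Cond : Type 1 where
  f : List ℕ →₀ Ordinal.{0}
  dec : ∀ (n : ℕ) (s : List ℕ), f (n :: s) ≠ 0 → f (n :: s) < f s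

namespace Cond

instance : CoeFun Cond (fun _ => List ℕ → Ordinal.{0}) := ⟨fun p => p.f⟩

theorem dec' (p : Cond) (n : ℕ) (s : List ℕ) (h : p (n :: s) ≠ 0) : p (n :: s) < p s :=
  p.dec n s h

/-- `q` extends `p` -/
def le (q p : Cond) : Prop := ∀ s, p s ≠ 0 → q s = p s

theorem le.refl (p : Cond) : p.le p := fun _ _ => rfl

theorem le.trans {p q r : Cond} (h1 : r.le q) (h2 : q.le p) : r.le p := by
  intro s hs
  have h3 := h2 s hs
  rw [h1 s (by rw [h3]; exact hs), h3]

/-- equality up to the values at least `γ` -/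
def EqT (γ : Ordinal.{0}) (p q : Cond) : Prop := ∀ s, (p s < γ ∨ q s < γ) → p s = q s

theorem EqT.refl (γ : Ordinal.{0}) (p : Cond) : EqT γ p p := fun _ _ => rfl

theorem EqT.symm {γ : Ordinal.{0}} {p q : Cond} (h : EqT γ p q) : EqT γ q p :=
  fun s hs => (h s hs.symm).symm

theorem EqT.trans {γ : Ordinal.{0}} {p q r : Cond} (h : EqT γ p q) (h' : EqT γ q r) :
    EqT γ p r := by
  intro s hs
  rcases hs with hs | hs
  · have h1 := h s (Or.inl hs)
    rw [h1]
    exact h' s (Or.inl (h1 ▸ hs))
  · have h1 := h' s (Or.inr hs)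
    rw [← h1]
    exact h s (Or.inr (h1 ▸ hs))

theorem EqT.mono {γ γ' : Ordinal.{0}} {p q : Cond} (h : EqT γ p q) (h' : γ' ≤ γ) :
    EqT γ' p q :=
  fun s hs => h s (hs.imp (fun x => x.trans_le h') (fun x => x.trans_le h'))

theorem chain (q : Cond) (s : List ℕ) : ∀ t : List ℕ, q (t ++ s) ≠ 0 →
    q (t ++ s) + (t.length : Ordinal.{0}) ≤ q s := by
  intro t
  induction t with
  | nil => intro _; simp
  | cons a t ih =>
    intro h
    have h1 : q (a :: (t ++ s)) < q (t ++ s) := q.dec' a (t ++ s) h
    have h2 : q (t ++ s) ≠ 0 := fun h0 => by rw [h0] at h1; exact absurd h1 (not_lt.2 bot_le)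
    have h3 := ih h2
    have h4 : q (a :: (t ++ s)) + 1 ≤ q (t ++ s) := Order.add_one_le_iff.2 h1
    have h5 : (((a :: t).length : ℕ) : Ordinal.{0}) = 1 + (t.length : Ordinal.{0}) := by
      rw [List.length_cons, Nat.add_comm]; push_cast; rfl
    rw [List.cons_append, h5, ← add_assoc]
    exact (add_le_add_left h4 _).trans h3

/-- the height of the part of the tree above `s` with values at least `γ` -/
noncomputable def ht (q : Cond) (γ : Ordinal.{0}) (s : List ℕ) : ℕ :=
  open Classical in
  (q.f.support.filter (fun r => γ ≤ q r ∧ s <:+ r)).sup (fun r => r.length - s.length)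

theorem le_ht {q : Cond} {γ : Ordinal.{0}} {s r : List ℕ} (hγ : 1 ≤ γ) (h : γ ≤ q r)
    (hs : s <:+ r) : r.length - s.length ≤ q.ht γ s := by
  classical
  unfold ht
  refine Finset.le_sup (f := fun r : List ℕ => r.length - s.length) ?_
  rw [Finset.mem_filter]
  refine ⟨Finsupp.mem_support_iff.2 ?_, h, hs⟩
  intro h0
  have h1 : γ ≤ 0 := by rw [← h0]; exact h
  exact absurd (hγ.trans h1) (by simp)

theorem ht_lt {q : Cond} {γ : Ordinal.{0}} {s : List ℕ} {n : ℕ} (hγ : 1 ≤ γ)
    (h : γ ≤ q (n :: s)) : q.ht γ (n :: s) < q.ht γ s := by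
  classical
  have h0 : 1 ≤ q.ht γ s := by
    have := le_ht hγ h (List.suffix_cons n s)
    simpa using this
  rw [ht, Finset.sup_lt_iff (by simp; omega)]
  intro r hr
  rw [Finset.mem_filter] at hr
  have h1 := le_ht hγ hr.2.1 ((List.suffix_cons n s).trans hr.2.2)
  have h2 := hr.2.2.length_le
  simp only [List.length_cons] at h2 ⊢
  omega

theorem add_ht_le {q : Cond} {γ : Ordinal.{0}} {s : List ℕ} (hγ : 1 ≤ γ)
    (h : γ ≤ q s) : γ + (q.ht γ s : Ordinal.{0}) ≤ q s := by
  classical
  have hne : (q.f.support.filter (fun r => γ ≤ q r ∧ s <:+ r)).Nonempty := by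
    refine ⟨s, ?_⟩
    rw [Finset.mem_filter]
    refine ⟨Finsupp.mem_support_iff.2 ?_, h, List.suffix_rfl⟩
    intro h0
    have h1 : γ ≤ 0 := by rw [← h0]; exact h
    exact absurd (hγ.trans h1) (by simp)
  obtain ⟨r, hr, hr'⟩ := Finset.exists_mem_eq_sup _ hne (fun r : List ℕ => r.length - s.length)
  rw [Finset.mem_filter] at hr
  have h1 : q.ht γ s = r.length - s.length := by
    rw [← hr']; unfold ht; congr
  obtain ⟨t, rfl⟩ := hr.2.2
  have h2 : q (t ++ s) ≠ 0 := Finsupp.mem_support_iff.1 hr.1
  have h3 := q.chain s t h2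
  rw [h1, List.length_append, Nat.add_sub_cancel]
  exact (add_le_add_left hr.2.1 _).trans h3

/-- Extension lemma -/
theorem ext_lemma {γ : Ordinal.{0}} (hγ : 1 ≤ γ) {p p' q : Cond} (h : EqT (γ + ω) p p')
    (hq : q.le p) : ∃ q' : Cond, q'.le p' ∧ EqT γ q' q ∧ ∀ s, q' s = p' s ∨ q' s < γ + ω := by
  classical
  have hγω : γ < γ + ω := by
    have := (add_lt_add_iff_left γ).2 Ordinal.omega0_pos
    simpa using this
  have h0 : ∀ s, p s ≠ 0 ↔ p' s ≠ 0 := by
    intro s
    have hpos : 0 < γ + ω := (zero_lt_one.trans_le hγ).trans hγω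
    constructor
    · intro h1 h2
      exact h1 ((h s (Or.inr (by rw [h2]; exact hpos))).trans h2)
    · intro h1 h2
      exact h1 ((h s (Or.inl (by rw [h2]; exact hpos))).symm.trans h2)
  let F : List ℕ → Ordinal.{0} := fun s =>
    if p s ≠ 0 then p' s else if q s < γ then q s else γ + (q.ht γ s : Ordinal.{0})
  have hF1 : ∀ s, p s ≠ 0 → F s = p' s := fun s hs => if_pos hs
  have hF2 : ∀ s, p s = 0 → q s < γ → F s = q s := by
    intro s hs hs'
    simp only [F, hs, ne_eq, not_true, if_false, hs', if_true]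
  have hF3 : ∀ s, p s = 0 → γ ≤ q s → F s = γ + (q.ht γ s : Ordinal.{0}) := by
    intro s hs hs'
    simp only [F, hs, ne_eq, not_true, if_false, not_lt.2 hs']
  have hsupp : ∀ s, F s ≠ 0 → s ∈ q.f.support := by
    intro s hs
    rw [Finsupp.mem_support_iff]
    by_cases h1 : p s ≠ 0
    · have := hq s h1
      change q s ≠ 0
      rw [this]; exact h1
    · push Not at h1
      rcases lt_or_ge (q s) γ with h2 | h2
      · rw [hF2 s h1 h2] at hs; exact hs
      · intro h3
        have h4 : γ ≤ 0 := by rw [← h3]; exact h2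
        exact absurd (hγ.trans h4) (by simp)
  have hdec : ∀ (n : ℕ) (s : List ℕ), F (n :: s) ≠ 0 → F (n :: s) < F s := by
    intro n s hns
    by_cases h1 : p (n :: s) ≠ 0
    · have h2 := p.dec' n s h1
      have h3 : p s ≠ 0 := fun h0 => by rw [h0] at h2; exact absurd h2 (not_lt.2 bot_le)
      rw [hF1 _ h1, hF1 _ h3]
      exact p'.dec' n s ((h0 _).1 h1)
    · push Not at h1
      rcases lt_or_ge (q (n :: s)) γ with h2 | h2
      · rw [hF2 _ h1 h2] at hns ⊢
        have h3 := q.dec' n s hns
        by_cases h4 : p s ≠ 0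
        · rw [hF1 _ h4]
          rw [hq s h4] at h3
          rcases lt_or_ge (p s) (γ + ω) with h5 | h5
          · rw [← h s (Or.inl h5)]; exact h3
          · have h6 : γ + ω ≤ p' s := by
              by_contra hc
              push Not at hc
              have := h s (Or.inr hc)
              rw [this] at h5
              exact absurd hc (not_lt.2 h5)
            exact (h2.trans hγω).trans_le h6
        · push Not at h4
          rcases lt_or_ge (q s) γ with h5 | h5
          · rw [hF2 _ h4 h5]; exact h3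
          · rw [hF3 _ h4 h5]
            exact h2.trans_le le_self_add
      · rw [hF3 _ h1 h2]
        have h3 : q (n :: s) ≠ 0 := fun h0 => by
          have h4 : γ ≤ 0 := by rw [← h0]; exact h2
          exact absurd (hγ.trans h4) (by simp)
        have h4 := q.dec' n s h3
        by_cases h5 : p s ≠ 0
        · rw [hF1 _ h5]
          rw [hq s h5] at h4
          rcases lt_or_ge (p s) (γ + ω) with h6 | h6
          · rw [← h s (Or.inl h6)]
            exact (add_ht_le hγ h2).trans_lt h4
          · have h7 : γ + ω ≤ p' s := by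
              by_contra hc
              push Not at hc
              have := h s (Or.inr hc)
              rw [this] at h6
              exact absurd hc (not_lt.2 h6)
            exact ((add_lt_add_iff_left γ).2 (Ordinal.natCast_lt_omega0 _)).trans_le h7
        · push Not at h5
          rw [hF3 _ h5 (h2.trans h4.le)]
          refine (add_lt_add_iff_left γ).2 ?_
          exact_mod_cast ht_lt hγ h2
  refine ⟨⟨Finsupp.onFinset q.f.support F hsupp, hdec⟩, ?_, ?_, ?_⟩
  · intro s hs
    exact hF1 s ((h0 s).2 hs)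
  · intro s hs
    change F s = q s
    change F s < γ ∨ q s < γ at hs
    by_cases h1 : p s ≠ 0
    · rw [hF1 s h1, hq s h1] at hs ⊢
      exact (h.mono hγω.le s hs.symm).symm
    · push Not at h1
      rcases lt_or_ge (q s) γ with h2 | h2
      · exact hF2 s h1 h2
      · rw [hF3 s h1 h2] at hs
        rcases hs with hs | hs
        · exact absurd hs (not_lt.2 le_self_add)
        · exact absurd hs (not_lt.2 h2)
  · intro s
    change F s = p' s ∨ F s < γ + ω
    by_cases h1 : p s ≠ 0
    · left; exact hF1 s h1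
    · push Not at h1
      right
      rcases lt_or_ge (q s) γ with h2 | h2
      · rw [hF2 s h1 h2]; exact h2.trans hγω
      · rw [hF3 s h1 h2]
        exact (add_lt_add_iff_left γ).2 (Ordinal.natCast_lt_omega0 _)

/-- the empty condition -/
def nil : Cond := ⟨0, fun _ _ h => absurd rfl h⟩

theorem nil_apply (s : List ℕ) : nil s = 0 := rfl

theorem le_nil (p : Cond) : p.le nil := fun s hs => absurd (nil_apply s) hs

/-- Normalisation -/
theorem normal {γ : Ordinal.{0}} (hγ : 1 ≤ γ) (q : Cond) :
    ∃ q' : Cond, EqT γ q' q ∧ ∀ s, q' s < γ + ω := by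
  obtain ⟨q', -, h2, h3⟩ := ext_lemma hγ (EqT.refl (γ + ω) nil) (le_nil q)
  refine ⟨q', h2, fun s => ?_⟩
  rcases h3 s with h | h
  · rw [h, nil_apply]
    have : (0 : Ordinal.{0}) < γ := zero_lt_one.trans_le hγ
    exact this.trans_le le_self_add
  · exact h

/-- There are only countably many conditions with values below a countable ordinal. -/
theorem countable_lt {γ : Ordinal.{0}} (hγ : γ < ω₁) : {p : Cond | ∀ s, p s < γ}.Countable := by
  have h1 : (Set.Iio γ).Countable := by
    rw [← Cardinal.le_aleph0_iff_set_countable, Cardinal.mk_Iio_ordinal, Cardinal.lift_le_aleph0]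
    have h1 : γ.card < Cardinal.aleph 1 := (Cardinal.lt_omega_iff_card_lt).1 hγ
    rw [← Cardinal.succ_aleph0] at h1
    exact Order.lt_succ_iff.1 h1
  have h2 : ((Set.univ : Set (List ℕ)) ×ˢ Set.Iio γ).Countable := Set.countable_univ.prod h1
  refine Set.MapsTo.countable_of_injOn
    (f := fun p : Cond => {x : List ℕ × Ordinal.{0} | x.2 ≠ 0 ∧ p x.1 = x.2}) ?_ ?_
    (Set.countable_ofPred_finite_subset h2)
  · intro p hp
    refine ⟨?_, ?_⟩
    · have : {x : List ℕ × Ordinal.{0} | x.2 ≠ 0 ∧ p x.1 = x.2} ⊆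
          (fun s => (s, p s)) '' (p.f.support : Set (List ℕ)) := by
        rintro ⟨s, a⟩ ⟨h3, h4⟩
        simp only at h3 h4
        refine ⟨s, ?_, by rw [← h4]⟩
        rw [Finset.mem_coe, Finsupp.mem_support_iff]
        exact fun h0 => h3 (h4.symm.trans h0)
      exact (p.f.support.finite_toSet.image _).subset this
    · rintro ⟨s, a⟩ ⟨h3, h4⟩
      simp only at h3 h4
      exact ⟨mem_univ _, by rw [mem_Iio, ← h4]; exact hp s⟩
  · intro p _ q _ hpq
    simp only at hpq
    have key : ∀ s, p s = q s := by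
      intro s
      by_cases h0 : p s = 0
      · by_contra hc
        have h3 : (s, q s) ∈ {x : List ℕ × Ordinal.{0} | x.2 ≠ 0 ∧ q x.1 = x.2} :=
          ⟨fun h4 => hc (h0.trans h4.symm), rfl⟩
        rw [← hpq] at h3
        exact hc h3.2
      · have h3 : (s, p s) ∈ {x : List ℕ × Ordinal.{0} | x.2 ≠ 0 ∧ p x.1 = x.2} := ⟨h0, rfl⟩
        rw [hpq] at h3
        exact h3.2.symm
    ext s
    exact key s

end Cond

/-! ### Codes and forcing -/

/-- codes of Borel sets of `n`-tuples -/
inductive Code (n : ℕ) : Type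
  | bit (i : Fin n) (s : List ℕ) : Code n
  | nun (f : ℕ → Code n) : Code n

variable {n : ℕ}

/-- The set coded by `c`: `bit i s` says that the value of the `i`-th function at `s` is `≥ 2`
(`s` is a node but not a leaf of the `i`-th tree); `nun f` is the union of the complements. -/
def Code.eval : Code n → (Fin n → List ℕ → Ordinal.{0}) → Prop
  | .bit i s, g => 2 ≤ g i s
  | .nun f, g => ∃ k, ¬ (f k).eval g

/-- tuple extension -/
def LeT (q p : Fin n → Cond) : Prop := ∀ i, (q i).le (p i)

theorem LeT.refl (p : Fin n → Cond) : LeT p p := fun i => Cond.le.refl _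

theorem LeT.trans {p q r : Fin n → Cond} (h1 : LeT r q) (h2 : LeT q p) : LeT r p :=
  fun i => (h1 i).trans (h2 i)

/-- forcing -/
def Forces : Code n → (Fin n → Cond) → Prop
  | .bit i s, p => 2 ≤ p i s
  | .nun f, p => ∃ k, ∀ q, LeT q p → ¬ Forces (f k) q

theorem Forces.mono {c : Code n} {p q : Fin n → Cond} (h : Forces c p) (hq : LeT q p) :
    Forces c q := by
  cases c with
  | bit i s =>
    simp only [Forces] at h ⊢
    have h0 : p i s ≠ 0 := fun h0 => by rw [h0] at h; exact absurd h (by simp)
    rw [hq i s h0]; exact h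
  | nun f =>
    simp only [Forces] at h ⊢
    obtain ⟨k, hk⟩ := h
    exact ⟨k, fun r hr => hk r (hr.trans hq)⟩

/-- a bound for the tags which matter -/
noncomputable def Code.gam : Code n → Ordinal.{0}
  | .bit _ _ => 2
  | .nun f => ⨆ k, ((f k).gam + ω)

theorem Code.gam_lt (c : Code n) : c.gam < ω₁ := by
  induction c with
  | bit i s =>
    simp only [Code.gam]
    exact (Ordinal.natCast_lt_omega0 2).trans Ordinal.omega0_lt_omega_one
  | nun f ih =>
    simp only [Code.gam]
    exact Ordinal.iSup_lt_omega_one fun k =>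
      Ordinal.isPrincipal_add_omega 1 (ih k) Ordinal.omega0_lt_omega_one

theorem Code.gam_sub (f : ℕ → Code n) (k : ℕ) : (f k).gam + ω ≤ (Code.nun f).gam := by
  simp only [Code.gam]
  exact Ordinal.le_iSup (fun k => (f k).gam + ω) k

theorem Code.two_le_gam (c : Code n) : 2 ≤ c.gam := by
  induction c with
  | bit i s => exact le_rfl
  | nun f ih => exact (ih 0).trans (le_self_add.trans (Code.gam_sub f 0))

theorem Code.one_le_gam (c : Code n) : 1 ≤ c.gam := le_trans (by norm_num) c.two_le_gam

/-- equality of tuples up to the values `≥ γ` -/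
def EqTT (γ : Ordinal.{0}) (p q : Fin n → Cond) : Prop := ∀ i, Cond.EqT γ (p i) (q i)

theorem ext_tuple {γ : Ordinal.{0}} (hγ : 1 ≤ γ) {p p' q : Fin n → Cond}
    (h : EqTT (γ + ω) p p') (hq : LeT q p) : ∃ q', LeT q' p' ∧ EqTT γ q' q := by
  choose q' h1 h2 _ using fun i => Cond.ext_lemma hγ (h i) (hq i)
  exact ⟨q', h1, h2⟩

theorem retag (c : Code n) : ∀ {p p' : Fin n → Cond}, EqTT c.gam p p' →
    (Forces c p ↔ Forces c p') := by
  induction c with
  | bit i s =>
    intro p p' h
    simp only [Forces]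
    have h1 := h i s
    simp only [Code.gam] at h1
    constructor
    · intro h2
      by_contra hc
      push Not at hc
      have h3 := h1 (Or.inr hc)
      rw [h3] at h2
      exact absurd hc (not_lt.2 h2)
    · intro h2
      by_contra hc
      push Not at hc
      have h3 := h1 (Or.inl hc)
      rw [← h3] at h2
      exact absurd hc (not_lt.2 h2)
  | nun f ih =>
    have key : ∀ {p p' : Fin n → Cond}, EqTT (Code.nun f).gam p p' →
        Forces (Code.nun f) p → Forces (Code.nun f) p' := by
      intro p p' h h1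
      simp only [Forces] at h1 ⊢
      obtain ⟨k, hk⟩ := h1
      refine ⟨k, fun q' hq' hf => ?_⟩
      have h2 : EqTT ((f k).gam + ω) p' p := fun i => ((h i).mono (Code.gam_sub f k)).symm
      obtain ⟨q, hq, hqq⟩ := ext_tuple (f k).one_le_gam h2 hq'
      exact hk q hq ((ih k hqq).2 hf)
    intro p p' h
    exact ⟨key h, key (fun i => (h i).symm)⟩

/-- `p` decides `c` -/
def Dec (c : Code n) (p : Fin n → Cond) : Prop := Forces c p ∨ ∀ q, LeT q p → ¬ Forces c q

theorem dec_dense (c : Code n) (p : Fin n → Cond) : ∃ q, LeT q p ∧ Dec c q := by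
  by_cases h : ∃ q, LeT q p ∧ Forces c q
  · obtain ⟨q, h1, h2⟩ := h
    exact ⟨q, h1, Or.inl h2⟩
  · push Not at h
    exact ⟨p, LeT.refl p, Or.inr h⟩

theorem dec_retag (c : Code n) {p p' : Fin n → Cond} (h : EqTT (c.gam + ω) p p') :
    Dec c p → Dec c p' := by
  rintro (h1 | h1)
  · left
    exact (retag c (fun i => (h i).mono le_self_add)).1 h1
  · right
    intro q' hq' hf
    obtain ⟨q, hq, hqq⟩ := ext_tuple c.one_le_gam (fun i => (h i).symm) hq'
    exact h1 q hq ((retag c hqq).2 hf)

/-- subcodes -/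
def Code.sub : Code n → Set (Code n)
  | .bit i s => {.bit i s}
  | .nun f => {.nun f} ∪ ⋃ k, (f k).sub

theorem Code.self_mem_sub (c : Code n) : c ∈ c.sub := by
  cases c with
  | bit i s => exact rfl
  | nun f => exact Or.inl rfl

theorem Code.sub_countable (c : Code n) : c.sub.Countable := by
  induction c with
  | bit i s => exact Set.countable_singleton _
  | nun f ih => exact (Set.countable_singleton _).union (Set.countable_iUnion ih)

theorem Code.sub_nun (f : ℕ → Code n) (k : ℕ) : (f k).sub ⊆ (Code.nun f).sub :=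
  fun _ hx => Or.inr (mem_iUnion.2 ⟨k, hx⟩)

theorem Code.gam_le_of_sub {c c' : Code n} (h : c' ∈ c.sub) : c'.gam ≤ c.gam := by
  induction c with
  | bit i s => rw [show c' = _ from h]
  | nun f ih =>
    rcases h with h | h
    · rw [show c' = _ from h]
    · obtain ⟨k, hk⟩ := mem_iUnion.1 h
      exact (ih k hk).trans (le_self_add.trans (Code.gam_sub f k))

/-! ### Full trees -/

/-- `g` is (the tag function of) a full well-founded tagged tree -/
structure Good (g : List ℕ → Ordinal.{0}) : Prop where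
  dec : ∀ n s, g (n :: s) ≠ 0 → g (n :: s) < g s
  full : ∀ n s, 2 ≤ g s → g (n :: s) ≠ 0
  all : ∀ s, 2 ≤ g s → ∀ w, 1 ≤ w → w < g s → ∃ n, g (n :: s) = w

/-- the conditions satisfied by `g` -/
def GG (g : List ℕ → Ordinal.{0}) : Set Cond := {p | ∀ s, p s ≠ 0 → p s = g s}

theorem nil_mem (g : List ℕ → Ordinal.{0}) : Cond.nil ∈ GG g :=
  fun s hs => absurd (Cond.nil_apply s) hs

open Classical in
/-- restriction of `g` to a finite set closed under tails -/
noncomputable def restr (g : List ℕ → Ordinal.{0}) (A : Finset (List ℕ))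
    (hg : ∀ n s, g (n :: s) ≠ 0 → g (n :: s) < g s) (hA : ∀ n s, n :: s ∈ A → s ∈ A) : Cond where
  f := Finsupp.onFinset A (fun s => if s ∈ A then g s else 0) (by
    intro s hs
    by_contra hc
    simp only [hc, if_false, ne_eq, not_true] at hs)
  dec := by
    intro n s h
    simp only [Finsupp.onFinset_apply] at h ⊢
    by_cases h1 : n :: s ∈ A
    · simp only [h1, hA n s h1, if_true] at h ⊢
      exact hg n s h
    · simp only [h1, if_false, ne_eq, not_true] at h

open Classical in
theorem restr_apply (g : List ℕ → Ordinal.{0}) (A : Finset (List ℕ))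
    (hg : ∀ n s, g (n :: s) ≠ 0 → g (n :: s) < g s) (hA : ∀ n s, n :: s ∈ A → s ∈ A)
    (s : List ℕ) : restr g A hg hA s = if s ∈ A then g s else 0 := rfl

theorem restr_mem (g : List ℕ → Ordinal.{0}) (A : Finset (List ℕ))
    (hg : ∀ n s, g (n :: s) ≠ 0 → g (n :: s) < g s) (hA : ∀ n s, n :: s ∈ A → s ∈ A) :
    restr g A hg hA ∈ GG g := by
  classical
  intro s hs
  rw [restr_apply] at hs ⊢
  split_ifs at hs ⊢ with h
  · rfl
  · exact absurd rfl hs

theorem support_closed (p : Cond) (n : ℕ) (s : List ℕ) (h : n :: s ∈ p.f.support) :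
    s ∈ p.f.support := by
  rw [Finsupp.mem_support_iff] at h ⊢
  have h1 := p.dec n s h
  intro h0
  rw [h0] at h1
  exact absurd h1 (not_lt.2 bot_le)

theorem GG.common {g : List ℕ → Ordinal.{0}} (hg : ∀ n s, g (n :: s) ≠ 0 → g (n :: s) < g s)
    {p q : Cond} (hp : p ∈ GG g) (hq : q ∈ GG g) : ∃ r ∈ GG g, r.le p ∧ r.le q := by
  classical
  have hA : ∀ n s, n :: s ∈ p.f.support ∪ q.f.support → s ∈ p.f.support ∪ q.f.support := by
    intro n s h
    rw [Finset.mem_union] at h ⊢
    exact h.imp (support_closed p n s) (support_closed q n s)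
  refine ⟨restr g _ hg hA, restr_mem _ _ _ _, ?_, ?_⟩
  · intro s hs
    rw [restr_apply, if_pos (Finset.mem_union_left _ (Finsupp.mem_support_iff.2 hs))]
    exact (hp s hs).symm
  · intro s hs
    rw [restr_apply, if_pos (Finset.mem_union_right _ (Finsupp.mem_support_iff.2 hs))]
    exact (hq s hs).symm

theorem exists_mem_apply {g : List ℕ → Ordinal.{0}}
    (hg : ∀ n s, g (n :: s) ≠ 0 → g (n :: s) < g s) (s : List ℕ) : ∃ p ∈ GG g, p s = g s := by
  classical
  have hA : ∀ n r, n :: r ∈ s.tails.toFinset → r ∈ s.tails.toFinset := by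
    intro n r h
    rw [List.mem_toFinset, List.mem_tails] at h ⊢
    exact (List.suffix_cons n r).trans h
  refine ⟨restr g _ hg hA, restr_mem _ _ _ _, ?_⟩
  rw [restr_apply, if_pos]
  rw [List.mem_toFinset, List.mem_tails]

/-- if `g` looks like `p` up to the values `≥ γ` then a condition of `g` is equivalent to `p` -/
theorem exists_eqT {g : List ℕ → Ordinal.{0}} (hg : ∀ n s, g (n :: s) ≠ 0 → g (n :: s) < g s)
    {γ : Ordinal.{0}} {p : Cond} (h : ∀ s, p s ≠ 0 → (p s < γ ∨ g s < γ) → p s = g s) :
    ∃ p' ∈ GG g, Cond.EqT γ p' p := by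
  classical
  refine ⟨restr g p.f.support hg (support_closed p), restr_mem _ _ _ _, ?_⟩
  intro s hs
  rw [restr_apply] at hs ⊢
  by_cases h1 : s ∈ p.f.support
  · rw [if_pos h1] at hs ⊢
    exact (h s (Finsupp.mem_support_iff.1 h1) hs.symm).symm
  · rw [if_neg h1]
    rw [Finsupp.mem_support_iff, not_not] at h1
    exact h1.symm

/-- Truth lemma -/
theorem truth {g : Fin n → List ℕ → Ordinal.{0}}
    (hg : ∀ i n s, g i (n :: s) ≠ 0 → g i (n :: s) < g i s) (c : Code n)
    (hd : ∀ c' ∈ c.sub, ∃ p : Fin n → Cond, (∀ i, p i ∈ GG (g i)) ∧ Dec c' p) :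
    c.eval g ↔ ∃ p : Fin n → Cond, (∀ i, p i ∈ GG (g i)) ∧ Forces c p := by
  induction c with
  | bit i s =>
    simp only [Code.eval, Forces]
    constructor
    · intro h
      obtain ⟨p, hp, hps⟩ := exists_mem_apply (hg i) s
      classical
      refine ⟨fun j => if j = i then p else Cond.nil, fun j => ?_, ?_⟩
      · by_cases hj : j = i
        · simp only [hj, if_true]; exact hp
        · simp only [hj, if_false]; exact nil_mem _
      · simp only [if_true]
        rw [hps]; exact h
    · rintro ⟨p, hp, h⟩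
      have h0 : p i s ≠ 0 := fun h0 => by rw [h0] at h; exact absurd h (by simp)
      rw [← hp i s h0]; exact h
  | nun f ih =>
    simp only [Code.eval, Forces]
    constructor
    · rintro ⟨k, hk⟩
      obtain ⟨p, hp, hdp⟩ := hd (f k) (Code.sub_nun f k (Code.self_mem_sub _))
      rcases hdp with h | h
      · exact absurd ((ih k (fun c' hc' => hd c' (Code.sub_nun f k hc'))).2 ⟨p, hp, h⟩) hk
      · exact ⟨p, hp, k, h⟩
    · rintro ⟨p, hp, k, hk⟩
      refine ⟨k, fun he => ?_⟩
      obtain ⟨q, hq, hf⟩ := (ih k (fun c' hc' => hd c' (Code.sub_nun f k hc'))).1 he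
      choose r hr1 hr2 hr3 using fun i => GG.common (hg i) (hp i) (hq i)
      exact hk r hr2 (hf.mono hr3)

end Pool.Agent.R591.UL
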