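import Pool.Agent.R591.UL.Proj

/-!
# The sequence of sets, and bounds for codes
-/

set_option autoImplicit false

namespace Pool.Agent.R591.UL

open Set Cardinal MeasureTheory
open scoped Ordinal

theorem add_lt_omega1 {a b : Ordinal.{0}} (ha : a < ω₁) (hb : b < ω₁) : a + b < ω₁ :=
  Ordinal.isPrincipal_add_omega 1 ha hb

theorem omega0_lt_omega1 : (ω : Ordinal.{0}) < ω₁ := Ordinal.omega0_lt_omega_one

theorem two_lt_omega1 : (2 : Ordinal.{0}) < ω₁ :=
  (Ordinal.natCast_lt_omega0 2).trans Ordinal.omega0_lt_omega_one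

theorem bound_countable {s : Set Ordinal.{0}} (hs : s.Countable) (h : ∀ x ∈ s, x < ω₁) :
    ∃ δ < ω₁, ∀ x ∈ s, x ≤ δ := by
  rcases s.eq_empty_or_nonempty with h0 | h0
  · subst h0
    exact ⟨2, two_lt_omega1, fun x hx => absurd hx (notMem_empty x)⟩
  · obtain ⟨f, rfl⟩ := hs.exists_eq_range h0
    exact ⟨⨆ n, f n, Ordinal.iSup_lt_omega_one fun n => h _ ⟨n, rfl⟩, by
      rintro _ ⟨n, rfl⟩
      exact Ordinal.le_iSup f n⟩

section

variable {E : Type} [LinearOrder E] (S : Sys E)

/-- the sequence of sets -/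
def Sys.AA (n : ℕ) : Set E :=
  match n with
  | 0 => Set.univ
  | k + 1 => match (Encodable.decode k : Option (List ℕ)) with
    | some s => S.As s
    | none => ∅

theorem Sys.gen_AA : MeasurableSpace.generateFrom (Set.range S.AA) = S.mE := by
  apply le_antisymm
  · refine MeasurableSpace.generateFrom_le ?_
    rintro _ ⟨n, rfl⟩
    cases n with
    | zero => exact @MeasurableSet.univ _ S.mE
    | succ k =>
      simp only [Sys.AA]
      split
      · exact S.measAs _
      · exact @MeasurableSet.empty _ S.mE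
  · refine MeasurableSpace.generateFrom_le ?_
    rintro _ ⟨s, rfl⟩
    refine MeasurableSpace.measurableSet_generateFrom ⟨Encodable.encode s + 1, ?_⟩
    simp [Sys.AA]

theorem Sys.Coded.mono {S : Sys E} {γ γ' : Ordinal.{0}} {X : Set E} (h : S.Coded γ X)
    (hγ : γ ≤ γ') : S.Coded γ' X := by
  obtain ⟨c, h1, h2⟩ := h
  exact ⟨c, h1.trans hγ, h2⟩

theorem Sys.coded_As (s : List ℕ) : S.Coded 2 (S.As s) :=
  ⟨.bit 0 s, by simp [Code.gam], fun x => Iff.rfl⟩

theorem Sys.Coded.iUnion_compl {S : Sys E} {γ : Ordinal.{0}} {f : ℕ → Set E}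
    (h : ∀ k, S.Coded γ (f k)) : S.Coded (γ + ω) (⋃ k, (f k)ᶜ) := by
  choose c h1 h2 using h
  refine ⟨.nun c, ?_, fun x => ?_⟩
  · simp only [Code.gam]
    exact Ordinal.iSup_le fun k => add_le_add_left (h1 k) ω
  · simp only [mem_iUnion, mem_compl_iff, Code.eval]
    exact exists_congr fun k => not_congr (h2 k x)

theorem Sys.Coded.compl {S : Sys E} {γ : Ordinal.{0}} {X : Set E}
    (h : S.Coded γ X) : S.Coded (γ + ω) Xᶜ := by
  have := Sys.Coded.iUnion_compl (f := fun _ => X) (fun _ => h)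
  rwa [iUnion_const] at this

theorem Sys.Coded.iUnion {S : Sys E} {γ : Ordinal.{0}} {f : ℕ → Set E}
    (h : ∀ k, S.Coded γ (f k)) : S.Coded (γ + ω + ω) (⋃ k, f k) := by
  have := Sys.Coded.iUnion_compl (f := fun k => (f k)ᶜ) (fun k => (h k).compl)
  simpa only [compl_compl] using this

theorem Sys.coded_univ : S.Coded (2 + ω + ω) Set.univ := by
  have h : ∀ k : ℕ, S.Coded (2 + ω) (if k = 0 then S.As [] else (S.As [])ᶜ) := by
    intro k
    split_ifs
    · exact (S.coded_As []).mono le_self_add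
    · exact (S.coded_As []).compl
  have h1 := Sys.Coded.iUnion_compl h
  convert h1 using 1
  ext x
  simp only [mem_univ, mem_iUnion, mem_compl_iff, true_iff]
  by_cases hx : x ∈ S.As []
  · exact ⟨1, by rw [if_neg one_ne_zero]; simpa using hx⟩
  · exact ⟨0, by rw [if_pos rfl]; exact hx⟩

theorem Sys.coded_empty : S.Coded (2 + ω + ω + ω) ∅ := by
  have := S.coded_univ.compl
  rwa [compl_univ] at this

theorem Sys.coded_AA (n : ℕ) : S.Coded (2 + ω + ω + ω) (S.AA n) := by
  cases n with
  | zero => exact S.coded_univ.mono le_self_add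
  | succ k =>
    simp only [Sys.AA]
    split
    · refine (S.coded_As _).mono ?_
      rw [add_assoc, add_assoc]
      exact le_self_add
    · exact S.coded_empty

theorem Sys.Coded.union {S : Sys E} {γ : Ordinal.{0}} {X Y : Set E}
    (hX : S.Coded γ X) (hY : S.Coded γ Y) : S.Coded (γ + ω + ω) (X ∪ Y) := by
  have := Sys.Coded.iUnion (f := fun k => if k = 0 then X else Y) (γ := γ) (S := S)
    (fun k => by split_ifs <;> assumption)
  convert this using 1
  ext x
  simp only [mem_union, mem_iUnion]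
  constructor
  · rintro (h | h)
    · exact ⟨0, by rw [if_pos rfl]; exact h⟩
    · exact ⟨1, by rw [if_neg one_ne_zero]; exact h⟩
  · rintro ⟨k, hk⟩
    split_ifs at hk
    · exact Or.inl hk
    · exact Or.inr hk

/-- the measurable set which is not coded -/
theorem Sys.exists_not_coded (γ : Ordinal.{0}) (hγ : γ < ω₁) :
    ∃ X : Set E, MeasurableSet[S.mE] X ∧ ¬ S.Coded γ X := by
  have h1 : 2 + γ < ω₁ := add_lt_omega1 two_lt_omega1 hγ
  refine ⟨{x | S.g x [0] ≤ 2 + γ}, S.meas_le _ h1 _, fun h => ?_⟩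
  exact S.high (2 + γ) h1 le_self_add (h.mono le_add_self)

end

end Pool.Agent.R591.UL
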