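import Pool.Agent.R591.UL.Cond

/-!
# Generic trees and the transfinite construction
-/

set_option autoImplicit false

namespace Pool.Agent.R591.UL

open Set Cardinal
open scoped Ordinal

/-- adding a node -/
noncomputable def addNode (p : Cond) (n : ℕ) (s : List ℕ) (w : Ordinal.{0})
    (h : p (n :: s) = 0) (hw : w < p s) : Cond where
  f := p.f.update (n :: s) w
  dec := by
    classical
    intro m r hr
    have hne : s ≠ n :: s := fun h => by
      have := congrArg List.length h
      simp at this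
    rw [Finsupp.coe_update] at hr ⊢
    by_cases h1 : m :: r = n :: s
    · have h2 : r = s := (List.cons.inj h1).2
      rw [h1, h2, Function.update_self, Function.update_of_ne hne]
      exact hw
    · rw [Function.update_of_ne h1] at hr ⊢
      have h2 := p.dec m r hr
      by_cases h3 : r = n :: s
      · exfalso
        rw [h3] at h2
        rw [show p.f (n :: s) = 0 from h] at h2
        exact absurd h2 (not_lt.2 bot_le)
      · rw [Function.update_of_ne h3]
        exact h2

theorem addNode_le (p : Cond) (n : ℕ) (s : List ℕ) (w : Ordinal.{0})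
    (h : p (n :: s) = 0) (hw : w < p s) : (addNode p n s w h hw).le p := by
  classical
  intro r hr
  have h1 : r ≠ n :: s := fun h1 => hr (by rw [h1]; exact h)
  change (p.f.update (n :: s) w) r = p.f r
  rw [Finsupp.coe_update, Function.update_of_ne h1]

theorem addNode_self (p : Cond) (n : ℕ) (s : List ℕ) (w : Ordinal.{0})
    (h : p (n :: s) = 0) (hw : w < p s) : (addNode p n s w h hw) (n :: s) = w := by
  classical
  change (p.f.update (n :: s) w) (n :: s) = w
  rw [Finsupp.coe_update, Function.update_self]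

theorem exists_free (p : Cond) (s : List ℕ) : ∃ n, p (n :: s) = 0 := by
  by_contra hc
  push Not at hc
  have h1 : Function.Injective (fun n : ℕ => n :: s) := fun a b h => (List.cons.inj h).1
  have h2 : Set.range (fun n : ℕ => n :: s) ⊆ (p.f.support : Set (List ℕ)) := by
    rintro _ ⟨n, rfl⟩
    rw [Finset.mem_coe, Finsupp.mem_support_iff]
    exact hc n
  exact Set.infinite_range_of_injective h1 (p.f.support.finite_toSet.subset h2)

theorem le_root (p : Cond) (s : List ℕ) : p s ≤ p [] := by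
  by_cases h : p s = 0
  · rw [h]; exact bot_le
  · have := p.chain [] s (by rw [List.append_nil]; exact h)
    rw [List.append_nil] at this
    exact le_self_add.trans this

/-- Generic trees exist. -/
theorem exists_good (p0 : Cond) (h1 : 1 ≤ p0 []) (hlt : p0 [] < ω₁) (D : ℕ → Cond → Prop)
    (hD : ∀ k, ∀ p : Cond, p.le p0 → ∃ q : Cond, q.le p ∧ D k q) :
    ∃ g : List ℕ → Ordinal.{0}, Good g ∧ p0 ∈ GG g ∧ g [] = p0 [] ∧
      ∀ k, ∃ p ∈ GG g, D k p := by
  classical
  let J : Type 1 := ℕ ⊕ ((ℕ × List ℕ) ⊕ (List ℕ × Set.Iio (p0 [])))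
  have hcI : Countable (Set.Iio (p0 [])) := by
    have h1 : (Set.Iio (p0 [])).Countable := by
      rw [← Cardinal.le_aleph0_iff_set_countable, Cardinal.mk_Iio_ordinal,
        Cardinal.lift_le_aleph0]
      have h1 : (p0 []).card < Cardinal.aleph 1 := (Cardinal.lt_omega_iff_card_lt).1 hlt
      rw [← Cardinal.succ_aleph0] at h1
      exact Order.lt_succ_iff.1 h1
    exact h1.to_subtype
  have hJ : Countable J := inferInstance
  have hJn : Nonempty J := ⟨Sum.inl 0⟩
  obtain ⟨e, he⟩ := exists_surjective_nat J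
  let R : J → Cond → Prop := fun j q =>
    match j with
    | Sum.inl k => D k q
    | Sum.inr (Sum.inl a) => 2 ≤ q a.2 → q (a.1 :: a.2) ≠ 0
    | Sum.inr (Sum.inr (a, w)) => 2 ≤ q a → 1 ≤ w.1 → w.1 < q a →
        ∃ n, q (n :: a) = w.1
  have hR : ∀ j, ∀ p : Cond, p.le p0 → ∃ q : Cond, q.le p ∧ R j q := by
    rintro (k | a | ⟨a, w⟩) p hp
    · exact hD k p hp
    · by_cases h2 : 2 ≤ p a.2 ∧ p (a.1 :: a.2) = 0
      · have hw : (1 : Ordinal.{0}) < p a.2 := lt_of_lt_of_le (by norm_num) h2.1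
        refine ⟨addNode p _ _ 1 h2.2 hw, addNode_le _ _ _ _ _ _, fun _ => ?_⟩
        rw [addNode_self]; exact one_ne_zero
      · refine ⟨p, Cond.le.refl p, fun h3 h4 => h2 ⟨h3, h4⟩⟩
    · by_cases h2 : w.1 < p a
      · obtain ⟨n, hn⟩ := exists_free p a
        refine ⟨addNode p _ _ w.1 hn h2, addNode_le _ _ _ _ _ _, fun _ _ _ => ⟨n, ?_⟩⟩
        rw [addNode_self]
      · refine ⟨p, Cond.le.refl p, fun _ _ h3 => absurd h3 h2⟩
  -- the sequence
  let seq : ℕ → {p : Cond // p.le p0} := fun m => Nat.rec ⟨p0, Cond.le.refl p0⟩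
    (fun m p => ⟨Classical.choose (hR (e m.unpair.1) p.1 p.2),
      (Classical.choose_spec (hR (e m.unpair.1) p.1 p.2)).1.trans p.2⟩) m
  have hs1 : ∀ m, (seq (m + 1)).1.le (seq m).1 := fun m =>
    (Classical.choose_spec (hR (e m.unpair.1) (seq m).1 (seq m).2)).1
  have hs2 : ∀ m, R (e m.unpair.1) (seq (m + 1)).1 := fun m =>
    (Classical.choose_spec (hR (e m.unpair.1) (seq m).1 (seq m).2)).2
  have hmono : ∀ m m', m ≤ m' → (seq m').1.le (seq m).1 := by
    intro m m' h
    induction m', h using Nat.le_induction with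
    | base => exact Cond.le.refl _
    | succ k _ ih => exact (hs1 k).trans ih
  have hagree : ∀ m m' s, (seq m).1 s ≠ 0 → (seq m').1 s ≠ 0 → (seq m).1 s = (seq m').1 s := by
    intro m m' s h h'
    rcases le_total m m' with h2 | h2
    · exact (hmono m m' h2 s h).symm
    · exact hmono m' m h2 s h'
  let g : List ℕ → Ordinal.{0} := fun s =>
    if h : ∃ m, (seq m).1 s ≠ 0 then (seq (Classical.choose h)).1 s else 0
  have hg : ∀ m s, (seq m).1 s ≠ 0 → g s = (seq m).1 s := by
    intro m s h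
    have h2 : ∃ m, (seq m).1 s ≠ 0 := ⟨m, h⟩
    simp only [g, dif_pos h2]
    exact hagree _ _ _ (Classical.choose_spec h2) h
  have hg' : ∀ s, g s ≠ 0 → ∃ m, (seq m).1 s ≠ 0 := by
    intro s h
    by_contra hc
    simp only [g, dif_neg hc, ne_eq, not_true] at h
  have hev : ∀ (m : ℕ) (j : J), ∃ m' : ℕ, m ≤ m' ∧ e (Nat.unpair m').1 = j := by
    intro m j
    obtain ⟨k, hk⟩ := he j
    exact ⟨Nat.pair k m, Nat.right_le_pair k m, by rw [Nat.unpair_pair]; exact hk⟩
  have hmem : ∀ m, (seq m).1 ∈ GG g := fun m s hs => (hg m s hs).symm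
  refine ⟨g, ⟨?_, ?_, ?_⟩, hmem 0, ?_, ?_⟩
  · intro n s h
    obtain ⟨m, hm⟩ := hg' _ h
    have h2 := (seq m).1.dec' n s hm
    have h3 : (seq m).1 s ≠ 0 := fun h0 => by rw [h0] at h2; exact absurd h2 (not_lt.2 bot_le)
    rw [hg m _ hm, hg m _ h3]
    exact h2
  · intro n s h
    obtain ⟨m, hm⟩ := hg' s (fun h0 => by rw [h0] at h; exact absurd h (by simp))
    obtain ⟨m', hm', hj⟩ := hev m (Sum.inr (Sum.inl (n, s)))
    have h2 := hs2 m'
    rw [hj] at h2
    have h3 : (seq (m' + 1)).1 s = (seq m).1 s := hmono m (m' + 1) (by omega) s hm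
    have h4 : (seq (m' + 1)).1 (n :: s) ≠ 0 := h2 (by
      change 2 ≤ (seq (m' + 1)).1 s
      rw [h3, ← hg m s hm]; exact h)
    rw [hg (m' + 1) _ h4]
    exact h4
  · intro s h w hw1 hw2
    obtain ⟨m, hm⟩ := hg' s (fun h0 => by rw [h0] at h; exact absurd h (by simp))
    have hroot : (seq m).1 [] = p0 [] := (seq m).2 [] (fun h0 => by
      rw [h0] at h1; exact absurd h1 (by simp))
    have hw3 : w < p0 [] := by
      rw [hg m s hm] at hw2
      rw [← hroot]
      exact hw2.trans_le (le_root _ _)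
    obtain ⟨m', hm', hj⟩ := hev m (Sum.inr (Sum.inr (s, ⟨w, hw3⟩)))
    have h2 := hs2 m'
    rw [hj] at h2
    have h3 : (seq (m' + 1)).1 s = (seq m).1 s := hmono m (m' + 1) (by omega) s hm
    have h4 : (seq (m' + 1)).1 s = g s := by rw [h3, ← hg m s hm]
    obtain ⟨n, hn⟩ := h2 (by change 2 ≤ (seq (m' + 1)).1 s; rw [h4]; exact h) hw1
      (by change w < (seq (m' + 1)).1 s; rw [h4]; exact hw2)
    change (seq (m' + 1)).1 (n :: s) = w at hn
    refine ⟨n, ?_⟩
    rw [← hn]
    refine hg (m' + 1) (n :: s) ?_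
    rw [hn]
    intro h0
    rw [h0] at hw1
    exact absurd hw1 (by simp)
  · apply hg 0
    intro h0
    have h2 : p0 [] = 0 := h0
    rw [h2] at h1
    exact absurd h1 (by simp)
  · intro k
    obtain ⟨m, -, hj⟩ := hev 0 (Sum.inl k)
    have h2 := hs2 m
    rw [hj] at h2
    exact ⟨(seq (m + 1)).1, hmem (m + 1), h2⟩

/-! ### Families of dense sets -/

/-- sets of tuples of conditions, of any finite length -/
abbrev Req : Type 1 := Σ m : ℕ, ((Fin m → Cond) → Prop)

/-- A countable family of dense invariant sets closed under fixing a coordinate. -/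
structure Fam (F : Set Req) (γ : Ordinal.{0}) : Prop where
  cnt : F.Countable
  dense : ∀ r ∈ F, ∀ p, ∃ q, LeT q p ∧ r.2 q
  inv : ∀ r ∈ F, ∀ p p', EqTT γ p p' → r.2 p → r.2 p'
  fix : ∀ (m : ℕ) (D : (Fin (m + 1) → Cond) → Prop), (⟨m + 1, D⟩ : Req) ∈ F →
    ∀ (i : Fin (m + 1)) (p0 : Cond), ∃ D' : (Fin m → Cond) → Prop, (⟨m, D'⟩ : Req) ∈ F ∧
      ∀ q, D' q → ∃ r : Cond, r.le p0 ∧ D (i.insertNth r q)

/-- fixing a coordinate -/
def fixC {m : ℕ} (D : (Fin (m + 1) → Cond) → Prop) (i : Fin (m + 1)) (p0 : Cond) :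
    (Fin m → Cond) → Prop := fun q => ∃ r : Cond, r.le p0 ∧ D (i.insertNth r q)

/-- the operation on requirements -/
def opR (A : Set Cond) : Req → Set Req
  | ⟨0, _⟩ => ∅
  | ⟨m + 1, D⟩ => ⋃ i : Fin (m + 1), (fun p0 => (⟨m, fixC D i p0⟩ : Req)) '' A

theorem opR_countable {A : Set Cond} (hA : A.Countable) (r : Req) : (opR A r).Countable := by
  rcases r with ⟨_ | m, D⟩
  · exact Set.countable_empty
  · exact Set.countable_iUnion fun i => hA.image _

theorem exists_fam {n : ℕ} (c : Code n) : ∃ F : Set Req, Fam F (c.gam + ω) ∧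
    ∀ c' ∈ c.sub, (⟨n, Dec c'⟩ : Req) ∈ F := by
  set γ : Ordinal.{0} := c.gam + ω with hγdef
  have hγ1 : 1 ≤ γ := c.one_le_gam.trans le_self_add
  have hω : (ω : Ordinal.{0}) < ω₁ := Ordinal.omega0_lt_omega_one
  have hadd : ∀ {a b : Ordinal.{0}}, a < ω₁ → b < ω₁ → a + b < ω₁ := fun ha hb =>
    Ordinal.isPrincipal_add_omega 1 ha hb
  have hγlt : γ + ω + ω < ω₁ := hadd (hadd (hadd c.gam_lt hω) hω) hω
  let A : Set Cond := {p | ∀ s, p s < γ + ω + ω}
  have hA : A.Countable := Cond.countable_lt hγlt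
  let F : ℕ → Set Req := fun k => Nat.rec ((fun c' => (⟨n, Dec c'⟩ : Req)) '' c.sub)
    (fun _ G => G ∪ ⋃ r ∈ G, opR A r) k
  have hF0 : F 0 = (fun c' => (⟨n, Dec c'⟩ : Req)) '' c.sub := rfl
  have hFs : ∀ k, F (k + 1) = F k ∪ ⋃ r ∈ F k, opR A r := fun k => rfl
  have hcnt : ∀ k, (F k).Countable := by
    intro k
    induction k with
    | zero => rw [hF0]; exact c.sub_countable.image _
    | succ k ih => rw [hFs]; exact ih.union (ih.biUnion fun r _ => opR_countable hA r)
  have hprop : ∀ k, ∀ r ∈ F k, (∀ p, ∃ q, LeT q p ∧ r.2 q) ∧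
      (∀ p p', EqTT γ p p' → r.2 p → r.2 p') := by
    intro k
    induction k with
    | zero =>
      rw [hF0]
      rintro _ ⟨c', hc', rfl⟩
      refine ⟨dec_dense c', fun p p' h h2 => dec_retag c' (fun i => (h i).mono ?_) h2⟩
      exact add_le_add_left (Code.gam_le_of_sub hc') ω
    | succ k ih =>
      rw [hFs]
      intro r hr
      rcases hr with hr | hr
      · exact ih r hr
      · obtain ⟨r', hr', hr⟩ := mem_iUnion₂.1 hr
        obtain ⟨ih1, ih2⟩ := ih r' hr'
        rcases r' with ⟨_ | m, D⟩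
        · exact absurd hr (notMem_empty _)
        · obtain ⟨i, p0, -, rfl⟩ := mem_iUnion.1 hr
          refine ⟨fun p => ?_, fun p p' h h2 => ?_⟩
          · obtain ⟨w, hw, hDw⟩ := ih1 (i.insertNth p0 p)
            refine ⟨fun j => w (i.succAbove j), fun j => ?_, w i, ?_, ?_⟩
            · have := hw (i.succAbove j)
              rwa [Fin.insertNth_apply_succAbove] at this
            · have := hw i
              rwa [Fin.insertNth_apply_same] at this
            · have : i.insertNth (w i) (fun j => w (i.succAbove j)) = w :=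
                Fin.insertNth_self_removeNth i w
              rw [this]
              exact hDw
          · obtain ⟨r, hr1, hr2⟩ := h2
            refine ⟨r, hr1, ih2 _ _ ?_ hr2⟩
            intro j
            refine Fin.succAboveCases i ?_ (fun j => ?_) j
            · rw [Fin.insertNth_apply_same, Fin.insertNth_apply_same]
              exact Cond.EqT.refl _ _
            · rw [Fin.insertNth_apply_succAbove, Fin.insertNth_apply_succAbove]
              exact h j
  refine ⟨⋃ k, F k, ⟨Set.countable_iUnion hcnt, ?_, ?_, ?_⟩, ?_⟩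
  · intro r hr
    obtain ⟨k, hk⟩ := mem_iUnion.1 hr
    exact (hprop k r hk).1
  · intro r hr
    obtain ⟨k, hk⟩ := mem_iUnion.1 hr
    exact (hprop k r hk).2
  · intro m D hD i p0
    obtain ⟨k, hk⟩ := mem_iUnion.1 hD
    obtain ⟨p0', h1, h2⟩ := Cond.normal (γ := γ + ω) (hγ1.trans le_self_add) p0
    refine ⟨fixC D i p0', mem_iUnion.2 ⟨k + 1, ?_⟩, ?_⟩
    · rw [hFs]
      right
      exact mem_iUnion₂.2 ⟨_, hk, mem_iUnion.2 ⟨i, p0', h2, rfl⟩⟩
    · rintro q ⟨r', hr', hDr⟩
      obtain ⟨r, hr1, hr2, -⟩ := Cond.ext_lemma hγ1 h1 hr'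
      refine ⟨r, hr1, (hprop k _ hk).2 _ _ ?_ hDr⟩
      intro j
      refine Fin.succAboveCases i ?_ (fun j => ?_) j
      · rw [Fin.insertNth_apply_same, Fin.insertNth_apply_same]
        exact hr2.symm
      · rw [Fin.insertNth_apply_succAbove, Fin.insertNth_apply_succAbove]
        exact Cond.EqT.refl _ _
  · intro c' hc'
    exact mem_iUnion.2 ⟨0, by rw [hF0]; exact ⟨c', hc', rfl⟩⟩

/-! ### Transfinite recursion -/

theorem rec_exists {α : Type*} {β : Type*} [LinearOrder α] [WellFoundedLT α] [Inhabited β]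
    (Phi : α → (α → β) → β → Prop)
    (hcongr : ∀ x G G' v, (∀ y < x, G y = G' y) → Phi x G v → Phi x G' v)
    (hex : ∀ x G, (∀ y < x, Phi y G (G y)) → ∃ v, Phi x G v) : ∃ g : α → β, ∀ x, Phi x g (g x) := by
  classical
  let step : (x : α) → ((y : α) → y < x → β) → β := fun x G =>
    if h : ∃ v, Phi x (fun y => if hy : y < x then G y hy else default) v
    then Classical.choose h else default
  let g : α → β := (wellFounded_lt (α := α)).fix step
  have hg : ∀ x, g x = step x (fun y _ => g y) := fun x =>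
    (wellFounded_lt (α := α)).fix_eq step x
  refine ⟨g, fun x => ?_⟩
  induction x using WellFoundedLT.induction with
  | ind x ih =>
    obtain ⟨v, hv⟩ := hex x g ih
    have hG : ∀ y < x, g y = (if hy : y < x then (fun y (_ : y < x) => g y) y hy
        else (default : β)) := by
      intro y hy
      rw [dif_pos hy]
    have h : ∃ v, Phi x (fun y => if hy : y < x then (fun y (_ : y < x) => g y) y hy
        else default) v := ⟨v, hcongr x _ _ v hG hv⟩
    have h2 : g x = Classical.choose h := by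
      rw [hg x]
      simp only [step]
      rw [dif_pos h]
    rw [h2]
    exact hcongr x _ _ _ (fun y hy => (hG y hy).symm) (Classical.choose_spec h)

/-- The construction. -/
theorem main_rec {E : Type} [LinearOrder E] [WellFoundedLT E]
    (hc : ∀ x : E, (Set.Iic x).Countable) (F : E → Set Req) (γ : E → Ordinal.{0})
    (hF : ∀ z, Fam (F z) (γ z)) (start : E → Cond) (hs1 : ∀ x, 3 ≤ start x [])
    (hs2 : ∀ x, start x [] < ω₁) :
    ∃ g : E → List ℕ → Ordinal.{0}, (∀ x, Good (g x)) ∧ (∀ x, start x ∈ GG (g x)) ∧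
      (∀ x, g x [] = start x []) ∧
      (∀ x y, y < x → ∃ s, ¬ (2 ≤ g x s ↔ 2 ≤ g y s)) ∧
      ∀ z, ∀ r ∈ F z, ∀ y : Fin r.1 → E, Function.Injective y → (∀ j, z ≤ y j) →
        ∃ p : Fin r.1 → Cond, (∀ j, p j ∈ GG (g (y j))) ∧ r.2 p := by
  classical
  let Phi : E → (E → (List ℕ → Ordinal.{0})) → (List ℕ → Ordinal.{0}) → Prop := fun x G v =>
    Good v ∧ start x ∈ GG v ∧ v [] = start x [] ∧
      (∀ y < x, ∃ s, ¬ (2 ≤ v s ↔ 2 ≤ G y s)) ∧
      ∀ z ≤ x, ∀ r ∈ F z, ∀ y : Fin r.1 → E, Function.Injective y → (∃ i, y i = x) →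
        (∀ j, z ≤ y j ∧ y j ≤ x) →
        ∃ p : Fin r.1 → Cond, (∀ j, p j ∈ GG (if y j = x then v else G (y j))) ∧ r.2 p
  -- consequence of `Phi`
  have hcons : ∀ (G : E → List ℕ → Ordinal.{0}) (P : E → Prop),
      (∀ x, P x → Phi x G (G x)) → ∀ z, ∀ r ∈ F z, ∀ y : Fin r.1 → E, Function.Injective y →
        (∀ j, z ≤ y j) → (∀ j, P (y j)) →
        ∃ p : Fin r.1 → Cond, (∀ j, p j ∈ GG (G (y j))) ∧ r.2 p := by
    intro G P hP z r hr y hy hz hPy
    rcases r with ⟨_ | m, D⟩
    · obtain ⟨q, -, hq⟩ := (hF z).dense _ hr (fun j => j.elim0)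
      exact ⟨q, fun j => j.elim0, hq⟩
    · obtain ⟨i, hi⟩ := Finite.exists_max y
      obtain ⟨p, hp1, hp2⟩ := (hP (y i) (hPy i)).2.2.2.2 z (hz i) _ hr y hy ⟨i, rfl⟩
        (fun j => ⟨hz j, hi j⟩)
      refine ⟨p, fun j => ?_, hp2⟩
      have := hp1 j
      by_cases h1 : y j = y i
      · rw [if_pos h1] at this
        rw [h1]; exact this
      · rw [if_neg h1] at this
        exact this
  obtain ⟨g, hg⟩ := rec_exists Phi (by
    rintro x G G' v hGG ⟨h1, h2, h3, h3', h4⟩
    refine ⟨h1, h2, h3, fun y hy => ?_, fun z hz r hr y hy hi hj => ?_⟩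
    · rw [← hGG y hy]; exact h3' y hy
    obtain ⟨p, hp1, hp2⟩ := h4 z hz r hr y hy hi hj
    refine ⟨p, fun j => ?_, hp2⟩
    have := hp1 j
    by_cases h5 : y j = x
    · rw [if_pos h5] at this ⊢; exact this
    · rw [if_neg h5] at this ⊢
      rw [← hGG (y j) (lt_of_le_of_ne (hj j).2 h5)]
      exact this) (by
    intro x G hG
    -- the countable family of requirements
    let RS : Set (Cond → Prop) := ⋃ z ∈ Set.Iic x, ⋃ r ∈ F z,
      Set.range (fun y : Fin r.1 → Set.Iic x => fun q : Cond =>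
        (Function.Injective y → (∃ i, (y i).1 = x) → (∀ j, z ≤ (y j).1) →
          ∃ p : Fin r.1 → Cond, (∀ j, ((y j).1 = x → p j = q) ∧
            ((y j).1 ≠ x → p j ∈ GG (G (y j).1))) ∧ r.2 p))
    have hRS : RS.Countable := by
      refine (hc x).biUnion fun z _ => (hF z).cnt.biUnion fun r _ => ?_
      have : Countable (Set.Iic x) := (hc x).to_subtype
      exact Set.countable_range _
    let TS : Set (Cond → Prop) := (fun y : E => fun q : Cond =>
      ∃ s, q s ≠ 0 ∧ ¬ (2 ≤ q s ↔ 2 ≤ G y s)) '' Set.Iic x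
    have hTS : TS.Countable := (hc x).image _
    have hne : (RS ∪ TS).Nonempty := ⟨_, Or.inr ⟨x, le_rfl, rfl⟩⟩
    obtain ⟨D, hD⟩ := (hRS.union hTS).exists_eq_range hne
    obtain ⟨v, hv1, hv2, hv3, hv4⟩ := exists_good (start x)
      (le_trans (by norm_num) (hs1 x)) (hs2 x) D (by
      intro k p hp
      have hk : D k ∈ RS ∪ TS := by rw [hD]; exact ⟨k, rfl⟩
      rcases hk with hk | hk
      · obtain ⟨z, hz, hk⟩ := mem_iUnion₂.1 hk
        obtain ⟨r, hr, hk⟩ := mem_iUnion₂.1 hk
        obtain ⟨y, hy⟩ := hk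
        by_cases hcond : Function.Injective y ∧ (∃ i, (y i).1 = x) ∧ (∀ j, z ≤ (y j).1)
        · obtain ⟨c1, ⟨i, c2⟩, c3⟩ := hcond
          rcases r with ⟨_ | m, D0⟩
          · exact i.elim0
          · obtain ⟨D', hD', hfix⟩ := (hF z).fix m D0 hr i p
            have hinj : Function.Injective (fun j : Fin m => (y (i.succAbove j)).1) := by
              intro a b hab
              exact Fin.succAbove_right_injective (c1 (Subtype.ext hab))
            obtain ⟨q, hq1, hq2⟩ := hcons G (fun y => y < x) (fun w hw => hG w hw) z ⟨m, D'⟩ hD'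
              (fun j => (y (i.succAbove j)).1) hinj (fun j => c3 _) (fun j => by
                refine lt_of_le_of_ne (y _).2 ?_
                intro h5
                have h6 : y (i.succAbove j) = y i := Subtype.ext (h5.trans c2.symm)
                exact Fin.succAbove_ne i j (c1 h6))
            obtain ⟨r', hr', hDr⟩ := hfix q hq2
            refine ⟨r', hr', ?_⟩
            rw [← hy]
            intro _ _ _
            refine ⟨i.insertNth r' q, fun j => ?_, hDr⟩
            refine Fin.succAboveCases i ?_ (fun j => ?_) j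
            · rw [Fin.insertNth_apply_same]
              exact ⟨fun _ => rfl, fun h5 => absurd c2 h5⟩
            · rw [Fin.insertNth_apply_succAbove]
              refine ⟨fun h5 => ?_, fun _ => hq1 j⟩
              have h6 : y (i.succAbove j) = y i := Subtype.ext (h5.trans c2.symm)
              exact absurd (c1 h6) (Fin.succAbove_ne i j)
        · refine ⟨p, Cond.le.refl p, ?_⟩
          rw [← hy]
          intro c1 c2 c3
          exact absurd ⟨c1, c2, c3⟩ hcond
      · obtain ⟨y, -, hk⟩ := hk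
        rw [← hk]
        have hroot : p [] = start x [] := hp [] (fun h0 => by
          have := hs1 x; rw [h0] at this; exact absurd this (by simp))
        have hr3 : 3 ≤ p [] := by rw [hroot]; exact hs1 x
        obtain ⟨n, hn⟩ := exists_free p []
        by_cases h5 : 2 ≤ G y [n]
        · have hw : (1 : Ordinal.{0}) < p [] := lt_of_lt_of_le (by norm_num) hr3
          refine ⟨addNode p n [] 1 hn hw, addNode_le _ _ _ _ _ _, [n], ?_, ?_⟩
          · rw [addNode_self]; exact one_ne_zero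
          · rw [addNode_self]
            intro h6
            exact absurd (h6.2 h5) (by norm_num)
        · have hw : (2 : Ordinal.{0}) < p [] := lt_of_lt_of_le (by norm_num) hr3
          refine ⟨addNode p n [] 2 hn hw, addNode_le _ _ _ _ _ _, [n], ?_, ?_⟩
          · rw [addNode_self]; exact two_ne_zero
          · rw [addNode_self]
            intro h6
            exact h5 (h6.1 le_rfl))
    refine ⟨v, hv1, hv2, hv3, ?_, ?_⟩
    · intro y hy
      have hmem : (fun q : Cond => ∃ s, q s ≠ 0 ∧ ¬ (2 ≤ q s ↔ 2 ≤ G y s)) ∈ TS :=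
        ⟨y, hy.le, rfl⟩
      have hmem2 := Set.mem_union_right RS hmem
      rw [hD] at hmem2
      obtain ⟨k, hk⟩ := hmem2
      obtain ⟨q, hq1, hq2⟩ := hv4 k
      rw [hk] at hq2
      obtain ⟨s, hs, hs'⟩ := hq2
      exact ⟨s, by rw [← hq1 s hs]; exact hs'⟩
    intro z hz r hr y hy hi hj
    let y' : Fin r.1 → Set.Iic x := fun j => ⟨y j, (hj j).2⟩
    have hmem : (fun q : Cond =>
        (Function.Injective y' → (∃ i, (y' i).1 = x) → (∀ j, z ≤ (y' j).1) →
          ∃ p : Fin r.1 → Cond, (∀ j, ((y' j).1 = x → p j = q) ∧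
            ((y' j).1 ≠ x → p j ∈ GG (G (y' j).1))) ∧ r.2 p)) ∈ RS :=
      mem_iUnion₂.2 ⟨z, hz, mem_iUnion₂.2 ⟨r, hr, y', rfl⟩⟩
    have hmem2 := Set.mem_union_left TS hmem
    rw [hD] at hmem2
    obtain ⟨k, hk⟩ := hmem2
    obtain ⟨q, hq1, hq2⟩ := hv4 k
    rw [hk] at hq2
    obtain ⟨p, hp1, hp2⟩ := hq2 (fun a b hab => hy (by
      have := congrArg Subtype.val hab; exact this)) hi (fun j => (hj j).1)
    refine ⟨p, fun j => ?_, hp2⟩
    by_cases h5 : y j = x
    · rw [if_pos h5, (hp1 j).1 h5]; exact hq1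
    · rw [if_neg h5]; exact (hp1 j).2 h5)
  refine ⟨g, fun x => (hg x).1, fun x => (hg x).2.1, fun x => (hg x).2.2.1,
    fun x => (hg x).2.2.2.1, ?_⟩
  intro z r hr y hy hz
  exact hcons g (fun _ => True) (fun x _ => hg x) z r hr y hy hz (fun _ => trivial)

end Pool.Agent.R591.UL
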