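import Pool.Agent.R591.UL.Sys

/-!
# Measurability, projections and unbounded classes
-/

set_option autoImplicit false

namespace Pool.Agent.R591.UL

open Set Cardinal MeasureTheory
open scoped Ordinal

section

variable {E : Type} [LinearOrder E] (S : Sys E)

/-- the generating sets -/
def Sys.As (s : List ℕ) : Set E := {x | 2 ≤ S.g x s}

/-- the σ-algebra -/
@[reducible] def Sys.mE : MeasurableSpace E := MeasurableSpace.generateFrom (Set.range S.As)

theorem Sys.measAs (s : List ℕ) : MeasurableSet[S.mE] (S.As s) :=
  MeasurableSpace.measurableSet_generateFrom ⟨s, rfl⟩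

theorem Sys.meas_le (δ : Ordinal.{0}) (hδ : δ < ω₁) :
    ∀ s, MeasurableSet[S.mE] {x | S.g x s ≤ δ} := by
  induction δ using WellFoundedLT.induction with
  | ind δ ih =>
    intro s
    let _ := S.mE
    rcases eq_or_ne δ 0 with h0 | h0
    · subst h0
      cases s with
      | nil =>
        have : {x | S.g x [] ≤ 0} = (∅ : Set E) := by
          ext x
          simp only [mem_ofPred_eq, mem_empty_iff_false, iff_false, not_le]
          exact pos_iff_ne_zero.2 (S.root_ne x)
        rw [this]; exact MeasurableSet.empty
      | cons n s =>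
        have : {x | S.g x (n :: s) ≤ 0} = (S.As s)ᶜ := by
          ext x
          simp only [mem_ofPred_eq, mem_compl_iff, Sys.As]
          constructor
          · intro h1 h2
            exact (S.good x).full n s h2 (le_antisymm h1 bot_le)
          · intro h1
            by_contra h2
            have h3 : S.g x (n :: s) ≠ 0 := fun h4 => h2 (by rw [h4])
            have h4 := (S.good x).dec n s h3
            apply h1
            have h5 : (1 : Ordinal.{0}) ≤ S.g x (n :: s) := Order.one_le_iff_pos.2
              (pos_iff_ne_zero.2 h3)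
            have h6 : S.g x (n :: s) + 1 ≤ S.g x s := Order.add_one_le_iff.2 h4
            calc (2 : Ordinal.{0}) = 1 + 1 := one_add_one_eq_two.symm
              _ ≤ S.g x (n :: s) + 1 := add_le_add_left h5 1
              _ ≤ S.g x s := h6
        rw [this]; exact (S.measAs s).compl
    · have h1 : (1 : Ordinal.{0}) ≤ δ := Order.one_le_iff_pos.2 (pos_iff_ne_zero.2 h0)
      have : {x | S.g x s ≤ δ} = ⋂ n : ℕ, ⋃ δ' ∈ Set.Iio δ, {x | S.g x (n :: s) ≤ δ'} := by
        ext x
        simp only [mem_ofPred_eq, mem_iInter, mem_iUnion, mem_Iio, exists_prop]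
        constructor
        · intro h2 n
          refine ⟨S.g x (n :: s), ?_, le_rfl⟩
          by_cases h3 : S.g x (n :: s) = 0
          · rw [h3]; exact pos_iff_ne_zero.2 h0
          · exact ((S.good x).dec n s h3).trans_le h2
        · intro h2
          by_contra h3
          push Not at h3
          have h4 : 2 ≤ S.g x s := by
            calc (2 : Ordinal.{0}) = 1 + 1 := one_add_one_eq_two.symm
              _ ≤ δ + 1 := add_le_add_left h1 1
              _ ≤ S.g x s := Order.add_one_le_iff.2 h3
          obtain ⟨n, hn⟩ := (S.good x).all s h4 δ h1 h3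
          obtain ⟨δ', h5, h6⟩ := h2 n
          rw [hn] at h6
          exact absurd h5 (not_lt.2 h6)
      rw [this]
      exact MeasurableSet.iInter fun n => MeasurableSet.biUnion (countable_Iio' hδ)
        fun δ' hδ' => ih δ' hδ' (lt_trans hδ' hδ) _

theorem Sys.meas_lt (δ : Ordinal.{0}) (hδ : δ < ω₁) (s : List ℕ) :
    MeasurableSet[S.mE] {x | S.g x s < δ} := by
  let _ := S.mE
  have : {x | S.g x s < δ} = ⋃ δ' ∈ Set.Iio δ, {x | S.g x s ≤ δ'} := by
    ext x
    simp only [mem_ofPred_eq, mem_iUnion, mem_Iio, exists_prop]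
    exact ⟨fun h => ⟨_, h, le_rfl⟩, fun ⟨δ', h1, h2⟩ => h2.trans_lt h1⟩
  rw [this]
  exact MeasurableSet.biUnion (countable_Iio' hδ) fun δ' hδ' => S.meas_le δ' (lt_trans hδ' hδ) _

theorem Sys.meas_singleton (e : E) : MeasurableSet[S.mE] ({e} : Set E) := by
  let _ := S.mE
  have : ({e} : Set E) = ⋂ s : List ℕ, {x | x ∈ S.As s ↔ e ∈ S.As s} := by
    ext x
    simp only [mem_singleton_iff, mem_iInter, mem_ofPred_eq]
    constructor
    · rintro rfl s; exact Iff.rfl
    · intro h
      by_contra hc
      obtain ⟨s, hs⟩ := S.sep x e hc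
      exact hs (h s)
  rw [this]
  refine MeasurableSet.iInter fun s => ?_
  by_cases h : e ∈ S.As s
  · have : {x | x ∈ S.As s ↔ e ∈ S.As s} = S.As s := by
      ext x; simp [h]
    rw [this]; exact S.measAs s
  · have : {x | x ∈ S.As s ↔ e ∈ S.As s} = (S.As s)ᶜ := by
      ext x; simp [h]
    rw [this]; exact (S.measAs s).compl

theorem Sys.meas_countable {A : Set E} (hA : A.Countable) : MeasurableSet[S.mE] A := by
  let _ := S.mE
  have : A = ⋃ x ∈ A, {x} := by
    ext y; simp
  rw [this]
  exact MeasurableSet.biUnion hA fun x _ => S.meas_singleton x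

theorem Sys.meas_eq {n : ℕ} (i j : Fin n) :
    MeasurableSet[@MeasurableSpace.pi (Fin n) (fun _ => E) (fun _ => S.mE)]
      {x : Fin n → E | x i = x j} := by
  let _ := S.mE
  have : {x : Fin n → E | x i = x j} =
      ⋂ s : List ℕ, {x | x i ∈ S.As s ↔ x j ∈ S.As s} := by
    ext x
    simp only [mem_iInter, mem_ofPred_eq]
    constructor
    · intro h s; rw [h]
    · intro h
      by_contra hc
      obtain ⟨s, hs⟩ := S.sep _ _ hc
      exact hs (h s)
  rw [this]
  refine MeasurableSet.iInter fun s => ?_
  have hi : MeasurableSet {x : Fin n → E | x i ∈ S.As s} := (measurable_pi_apply i) (S.measAs s)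
  have hj : MeasurableSet {x : Fin n → E | x j ∈ S.As s} := (measurable_pi_apply j) (S.measAs s)
  have : {x : Fin n → E | x i ∈ S.As s ↔ x j ∈ S.As s} =
      ({x : Fin n → E | x i ∈ S.As s} ∩ {x : Fin n → E | x j ∈ S.As s}) ∪
      ({x : Fin n → E | x i ∈ S.As s}ᶜ ∩ {x : Fin n → E | x j ∈ S.As s}ᶜ) := by
    ext x
    simp only [mem_ofPred_eq, mem_union, mem_inter_iff, mem_compl_iff]
    tauto
  rw [this]
  exact (hi.inter hj).union (hi.compl.inter hj.compl)

/-- measurable sets of tuples have codes -/
theorem Sys.exists_code {n : ℕ} {W : Set (Fin (n + 1) → E)}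
    (hW : MeasurableSet[@MeasurableSpace.pi (Fin (n + 1)) (fun _ => E) (fun _ => S.mE)] W) :
    ∃ c : Code (n + 1), ∀ x : Fin (n + 1) → E, x ∈ W ↔ c.eval (fun i => S.g (x i)) := by
  let M : MeasurableSpace (Fin (n + 1) → E) :=
    { MeasurableSet' := fun W => ∃ c : Code (n + 1), ∀ x : Fin (n + 1) → E,
        x ∈ W ↔ c.eval (fun i => S.g (x i))
      measurableSet_empty := by
        let c : Code (n + 1) := .bit 0 []
        refine ⟨.nun (fun _ => .nun (fun k => if k = 0 then c else .nun (fun _ => c))), fun x => ?_⟩
        constructor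
        · intro h; exact absurd h (notMem_empty x)
        · rintro ⟨_, h⟩
          exfalso
          apply h
          by_cases h : c.eval (fun i => S.g (x i))
          · refine ⟨1, ?_⟩
            show ¬ Code.eval (if (1 : ℕ) = 0 then c else .nun (fun _ => c)) (fun i => S.g (x i))
            rw [if_neg one_ne_zero]
            rintro ⟨_, h2⟩
            exact h2 h
          · refine ⟨0, ?_⟩
            show ¬ Code.eval (if (0 : ℕ) = 0 then c else .nun (fun _ => c)) (fun i => S.g (x i))
            rw [if_pos rfl]; exact h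
      measurableSet_compl := by
        rintro W ⟨c, hc⟩
        refine ⟨.nun (fun _ => c), fun x => ?_⟩
        simp only [mem_compl_iff, Code.eval, exists_const]
        rw [hc x]
      measurableSet_iUnion := by
        intro W hW
        choose c hc using hW
        refine ⟨.nun (fun k => .nun (fun _ => c k)), fun x => ?_⟩
        simp only [mem_iUnion, Code.eval, exists_const, not_not]
        exact exists_congr fun k => hc k x }
  have hle : @MeasurableSpace.pi (Fin (n + 1)) (fun _ => E) (fun _ => S.mE) ≤ M := by
    refine iSup_le fun i => ?_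
    rw [MeasurableSpace.comap_le_iff_le_map]
    refine MeasurableSpace.generateFrom_le ?_
    rintro _ ⟨s, rfl⟩
    exact ⟨.bit i s, fun x => Iff.rfl⟩
  exact hle W hW

/-- the set of points which look like `p` up to the values `≥ γ` -/
def Sys.box (γ : Ordinal.{0}) (p : Cond) : Set E :=
  {x | ∀ s, p s ≠ 0 → (p s < γ ∨ S.g x s < γ) → p s = S.g x s}

theorem Sys.meas_box (γ : Ordinal.{0}) (hγ : γ < ω₁) (p : Cond) :
    MeasurableSet[S.mE] (S.box γ p) := by
  let _ := S.mE
  have : S.box γ p = ⋂ s : List ℕ, {x | p s ≠ 0 → (p s < γ ∨ S.g x s < γ) → p s = S.g x s} := by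
    ext x; simp [Sys.box]
  rw [this]
  refine MeasurableSet.iInter fun s => ?_
  by_cases h0 : p s = 0
  · have : {x : E | p s ≠ 0 → (p s < γ ∨ S.g x s < γ) → p s = S.g x s} = Set.univ := by
      ext x; simp [h0]
    rw [this]; exact MeasurableSet.univ
  · rcases lt_or_ge (p s) γ with h1 | h1
    · have : {x : E | p s ≠ 0 → (p s < γ ∨ S.g x s < γ) → p s = S.g x s} =
          {x | S.g x s ≤ p s} \ {x | S.g x s < p s} := by
        ext x
        simp only [mem_ofPred_eq, mem_diff, not_lt]
        constructor
        · intro h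
          have := h h0 (Or.inl h1)
          exact ⟨this.ge, this.le⟩
        · intro h _ _
          exact le_antisymm h.2 h.1
      rw [this]
      exact (S.meas_le _ (h1.trans hγ) s).diff (S.meas_lt _ (h1.trans hγ) s)
    · have : {x : E | p s ≠ 0 → (p s < γ ∨ S.g x s < γ) → p s = S.g x s} =
          {x | S.g x s < γ}ᶜ := by
        ext x
        simp only [mem_ofPred_eq, mem_compl_iff, not_lt]
        constructor
        · intro h
          by_contra hc
          push Not at hc
          have := h h0 (Or.inr hc)
          rw [← this] at hc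
          exact absurd hc (not_lt.2 h1)
        · intro h _ h2
          rcases h2 with h2 | h2
          · exact absurd h2 (not_lt.2 h1)
          · exact absurd h2 (not_lt.2 h)
      rw [this]
      exact (S.meas_lt γ hγ s).compl

/-- Projections of measurable sets are measurable. -/
theorem Sys.proj : ∀ (n : ℕ) (W : Set (Fin (n + 1) → E)),
    MeasurableSet[@MeasurableSpace.pi (Fin (n + 1)) (fun _ => E) (fun _ => S.mE)] W →
    MeasurableSet[@MeasurableSpace.pi (Fin n) (fun _ => E) (fun _ => S.mE)]
      {x : Fin n → E | ∃ y, (Fin.snoc (α := fun _ => E) x y : Fin (n + 1) → E) ∈ W} := by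
  classical
  let _ := S.mE
  intro n
  induction n with
  | zero =>
    intro W _
    exact Subsingleton.measurableSet
  | succ n ih =>
    intro W hW
    obtain ⟨c, hc⟩ := S.exists_code hW
    obtain ⟨z, hz⟩ := S.cdx (n + 2) c
    obtain ⟨z', hz'⟩ := S.big c.gam c.gam_lt
    set α0 : E := max z z' with hα0
    -- the set
    set P : Set (Fin (n + 1) → E) :=
      {x | ∃ y, (Fin.snoc (α := fun _ => E) x y : Fin (n + 2) → E) ∈ W} with hP
    -- general substitution
    have hsub : ∀ (k : (Fin n → E) → (Fin (n + 1) → E)), Measurable k →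
        MeasurableSet {x : Fin n → E | k x ∈ P} := by
      intro k hk
      have h1 : Measurable (fun w : Fin (n + 1) → E =>
          (Fin.snoc (α := fun _ => E) (k (fun j => w j.castSucc)) (w (Fin.last n)) :
            Fin (n + 2) → E)) := by
        refine measurable_pi_iff.2 fun j => ?_
        refine Fin.lastCases ?_ (fun j => ?_) j
        · simpa using measurable_pi_apply (Fin.last n)
        · have h2 : Measurable (fun w : Fin (n + 1) → E => fun j : Fin n => w j.castSucc) :=
            measurable_pi_iff.2 fun j => measurable_pi_apply _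
          simp only [Fin.snoc_castSucc]
          exact (measurable_pi_apply j).comp (hk.comp h2)
      have h2 := ih _ (h1 hW)
      convert h2 using 1
      ext x
      simp [hP]
    -- the pieces of the union
    have hP1 : ∀ (i : Fin (n + 1)) (e : E), MeasurableSet {x : Fin (n + 1) → E | x i = e ∧ x ∈ P} := by
      intro i e
      have h1 : Measurable (fun w : Fin n → E => (i.insertNth e w : Fin (n + 1) → E)) := by
        refine measurable_pi_iff.2 fun j => ?_
        refine Fin.succAboveCases i ?_ (fun j => ?_) j
        · simp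
        · simpa using measurable_pi_apply j
      have h2 := hsub _ h1
      have h3 : Measurable (fun x : Fin (n + 1) → E => fun j : Fin n => x (i.succAbove j)) :=
        measurable_pi_iff.2 fun j => measurable_pi_apply _
      have h4 : {x : Fin (n + 1) → E | x i = e ∧ x ∈ P} =
          {x | x i ∈ ({e} : Set E)} ∩ (fun x : Fin (n + 1) → E => fun j : Fin n => x (i.succAbove j)) ⁻¹'
            {x : Fin n → E | (i.insertNth e x : Fin (n + 1) → E) ∈ P} := by
        ext x
        simp only [mem_ofPred_eq, mem_inter_iff, mem_singleton_iff, mem_preimage]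
        constructor
        · rintro ⟨h5, h6⟩
          refine ⟨h5, ?_⟩
          have : (i.insertNth e (fun j : Fin n => x (i.succAbove j)) : Fin (n + 1) → E) = x := by
            rw [← h5]; exact Fin.insertNth_self_removeNth i x
          rw [this]; exact h6
        · rintro ⟨h5, h6⟩
          refine ⟨h5, ?_⟩
          have : (i.insertNth e (fun j : Fin n => x (i.succAbove j)) : Fin (n + 1) → E) = x := by
            rw [← h5]; exact Fin.insertNth_self_removeNth i x
          rw [this] at h6; exact h6
      rw [h4]
      exact ((measurable_pi_apply i) (S.meas_singleton e)).inter (h3 h2)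
    have hP2 : ∀ (i j : Fin (n + 1)), i ≠ j →
        MeasurableSet {x : Fin (n + 1) → E | x i = x j ∧ x ∈ P} := by
      intro i j hij
      obtain ⟨j', hj'⟩ := Fin.exists_succAbove_eq (Ne.symm hij)
      have h1 : Measurable (fun w : Fin n → E => (i.insertNth (w j') w : Fin (n + 1) → E)) := by
        refine measurable_pi_iff.2 fun k => ?_
        refine Fin.succAboveCases i ?_ (fun k => ?_) k
        · simpa using measurable_pi_apply j'
        · simpa using measurable_pi_apply k
      have h2 := hsub _ h1
      have h3 : Measurable (fun x : Fin (n + 1) → E => fun j : Fin n => x (i.succAbove j)) :=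
        measurable_pi_iff.2 fun j => measurable_pi_apply _
      have h4 : {x : Fin (n + 1) → E | x i = x j ∧ x ∈ P} =
          {x | x i = x j} ∩ (fun x : Fin (n + 1) → E => fun j : Fin n => x (i.succAbove j)) ⁻¹'
            {x : Fin n → E | (i.insertNth (x j') x : Fin (n + 1) → E) ∈ P} := by
        ext x
        simp only [mem_ofPred_eq, mem_inter_iff, mem_preimage]
        rw [hj']
        constructor
        · rintro ⟨h5, h6⟩
          refine ⟨h5, ?_⟩
          have : (i.insertNth (x j) (fun j : Fin n => x (i.succAbove j)) : Fin (n + 1) → E) = x := by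
            rw [← h5]; exact Fin.insertNth_self_removeNth i x
          rw [this]; exact h6
        · rintro ⟨h5, h6⟩
          refine ⟨h5, ?_⟩
          have : (i.insertNth (x j) (fun j : Fin n => x (i.succAbove j)) : Fin (n + 1) → E) = x := by
            rw [← h5]; exact Fin.insertNth_self_removeNth i x
          rw [this] at h6; exact h6
      rw [h4]
      exact (S.meas_eq i j).inter (h3 h2)
    -- the countable set of tuples of conditions
    set γ : Ordinal.{0} := c.gam with hγ
    have hγlt : γ < ω₁ := c.gam_lt
    have hγω : γ + ω < ω₁ := Ordinal.isPrincipal_add_omega 1 hγlt Ordinal.omega0_lt_omega_one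
    set RR : Set (Fin (n + 2) → Cond) := Set.pi Set.univ (fun _ => {p : Cond | ∀ s, p s < γ + ω}) with hRR
    have hRRc : RR.Countable := Set.countable_univ_pi fun _ => Cond.countable_lt hγω
    set QS : Set (Fin (n + 1) → E) :=
      ⋃ p ∈ {p | p ∈ RR ∧ Forces c p ∧ (p (Fin.last (n + 1)) [] = 0 ∨
        γ ≤ p (Fin.last (n + 1)) [])}, {x | ∀ i : Fin (n + 1), x i ∈ S.box γ (p i.castSucc)}
      with hQS
    have hQSm : MeasurableSet QS := by
      refine MeasurableSet.biUnion (hRRc.mono fun p hp => hp.1) fun p _ => ?_
      have : {x : Fin (n + 1) → E | ∀ i : Fin (n + 1), x i ∈ S.box γ (p i.castSucc)} =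
          ⋂ i : Fin (n + 1), {x | x i ∈ S.box γ (p i.castSucc)} := by
        ext x; simp
      rw [this]
      exact MeasurableSet.iInter fun i => (measurable_pi_apply i) (S.meas_box γ hγlt _)
    -- the main part
    set MM : Set (Fin (n + 1) → E) := {x | Function.Injective x ∧ ∀ i, α0 ≤ x i} with hMM
    have hcIio : (Set.Iio α0).Countable := (S.cntI α0).mono Iio_subset_Iic_self
    have hMMm : MeasurableSet MM := by
      have : MM = (⋂ i : Fin (n + 1), ⋂ j : Fin (n + 1), {x | x i = x j → i = j}) ∩
          ⋂ i : Fin (n + 1), {x | x i ∈ (Set.Iio α0)ᶜ} := by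
        ext x
        simp only [hMM, mem_ofPred_eq, mem_inter_iff, mem_iInter, mem_compl_iff, mem_Iio, not_lt]
        exact ⟨fun h => ⟨fun i j hij => h.1 hij, h.2⟩, fun h => ⟨fun i j hij => h.1 i j hij, h.2⟩⟩
      rw [this]
      refine (MeasurableSet.iInter fun i => MeasurableSet.iInter fun j => ?_).inter
        (MeasurableSet.iInter fun i => (measurable_pi_apply i) (S.meas_countable hcIio).compl)
      by_cases hij : i = j
      · have : {x : Fin (n + 1) → E | x i = x j → i = j} = Set.univ := by
          ext x; simp [hij]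
        rw [this]; exact MeasurableSet.univ
      · have : {x : Fin (n + 1) → E | x i = x j → i = j} = {x | x i = x j}ᶜ := by
          ext x; simp [hij]
        rw [this]; exact (S.meas_eq i j).compl
    -- the decomposition
    have hmain : ∀ x ∈ MM, ((∃ y, α0 ≤ y ∧ (∀ i, x i ≠ y) ∧
        (Fin.snoc (α := fun _ => E) x y : Fin (n + 2) → E) ∈ W) ↔ x ∈ QS) := by
      rintro x ⟨hxinj, hxα⟩
      have hX : ∀ y, α0 ≤ y → (∀ i, x i ≠ y) →
          ((Fin.snoc (α := fun _ => E) x y : Fin (n + 2) → E) ∈ W ↔
            ∃ p : Fin (n + 2) → Cond, (∀ i, p i ∈ GG (S.g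
              ((Fin.snoc (α := fun _ => E) x y : Fin (n + 2) → E) i))) ∧ Forces c p) := by
        intro y hy hxy
        rw [hc]
        refine truth (fun i => (S.good _).dec) c ?_
        refine hz _ ?_ ?_
        · intro a b hab
          revert hab
          refine Fin.lastCases ?_ (fun a => ?_) a <;> refine Fin.lastCases ?_ (fun b => ?_) b
          · intro _; rfl
          · intro hab
            simp only [Fin.snoc_last, Fin.snoc_castSucc] at hab
            exact absurd hab.symm (hxy b)
          · intro hab
            simp only [Fin.snoc_last, Fin.snoc_castSucc] at hab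
            exact absurd hab (hxy a)
          · intro hab
            simp only [Fin.snoc_castSucc] at hab
            rw [hxinj hab]
        · intro i
          refine Fin.lastCases ?_ (fun i => ?_) i
          · simp only [Fin.snoc_last]; exact (le_max_left _ _).trans hy
          · simp only [Fin.snoc_castSucc]; exact (le_max_left _ _).trans (hxα i)
      constructor
      · rintro ⟨y, hy, hxy, hW'⟩
        obtain ⟨p, hp, hF⟩ := (hX y hy hxy).1 hW'
        choose p' hp'1 hp'2 using fun i => Cond.normal (γ := γ) c.one_le_gam (p i)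
        have hF' : Forces c p' := (retag c (fun i => (hp'1 i))).2 hF
        have hbox : ∀ i, (Fin.snoc (α := fun _ => E) x y : Fin (n + 2) → E) i ∈
            S.box γ (p' i) := by
          intro i s hs0 hs
          have h1 : p' i s < γ → p' i s = S.g
              ((Fin.snoc (α := fun _ => E) x y : Fin (n + 2) → E) i) s := by
            intro h2
            have h3 := hp'1 i s (Or.inl h2)
            rw [h3]
            exact hp i s (by rw [← h3]; exact hs0)
          rcases hs with hs | hs
          · exact h1 hs
          · rcases lt_or_ge (p' i s) γ with h2 | h2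
            · exact h1 h2
            · exfalso
              have h3 : γ ≤ p i s := by
                by_contra hcc
                push Not at hcc
                have h4 := hp'1 i s (Or.inr hcc)
                rw [h4] at h2
                exact absurd hcc (not_lt.2 h2)
              have h4 : p i s ≠ 0 := fun h5 => by
                rw [h5] at h3
                exact absurd (c.one_le_gam.trans h3) (by simp)
              rw [hp i s h4] at h3
              exact absurd hs (not_lt.2 h3)
        refine mem_iUnion₂.2 ⟨p', ⟨fun i _ => hp'2 i, hF', ?_⟩, fun i => ?_⟩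
        · by_contra hcc
          push Not at hcc
          have h1 := hbox (Fin.last (n + 1)) [] hcc.1 (Or.inl hcc.2)
          simp only [Fin.snoc_last] at h1
          have h2 := hz' y ((le_max_right _ _).trans hy)
          rw [← h1] at h2
          exact absurd hcc.2 (not_lt.2 h2)
        · have := hbox i.castSucc
          simp only [Fin.snoc_castSucc] at this
          exact this
      · intro hx
        obtain ⟨p, ⟨hpR, hF, hroot⟩, hbox⟩ := mem_iUnion₂.1 hx
        -- choose y
        obtain ⟨m, hm⟩ := Finite.exists_max x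
        have hplt : ∀ s, p (Fin.last (n + 1)) s < ω₁ := fun s =>
          (hpR (Fin.last (n + 1)) (mem_univ _) s).trans hγω
        obtain ⟨y, hy1, hy2, hy3⟩ := S.real (p (Fin.last (n + 1))) hplt (max α0 (x m))
        have hyα : α0 ≤ y := (le_max_left _ _).trans hy1.le
        have hxy : ∀ i, x i ≠ y := fun i =>
          (((hm i).trans (le_max_right _ _)).trans_lt hy1).ne
        refine ⟨y, hyα, hxy, (hX y hyα hxy).2 ?_⟩
        have hbox' : ∀ i, (Fin.snoc (α := fun _ => E) x y : Fin (n + 2) → E) i ∈
            S.box γ (p i) := by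
          intro i
          refine Fin.lastCases ?_ (fun i => ?_) i
          · simp only [Fin.snoc_last]
            intro s hs0 hs
            by_cases hsn : s = []
            · subst hsn
              rcases hroot with h1 | h1
              · exact absurd h1 hs0
              · rcases hs with hs | hs
                · exact absurd hs (not_lt.2 h1)
                · exact absurd hs (not_lt.2 (h1.trans hy3))
            · exact (hy2 s hsn hs0).symm
          · simp only [Fin.snoc_castSucc]
            exact hbox i
        choose p' hp'1 hp'2 using fun i => exists_eqT (S.good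
          ((Fin.snoc (α := fun _ => E) x y : Fin (n + 2) → E) i)).dec (hbox' i)
        exact ⟨p', hp'1, (retag c (fun i => hp'2 i)).2 hF⟩
    have hdecomp : P = (⋃ i : Fin (n + 1), ⋃ e ∈ Set.Iio α0, {x | x i = e ∧ x ∈ P}) ∪
        (⋃ i : Fin (n + 1), ⋃ j : Fin (n + 1), ⋃ (_ : i ≠ j), {x | x i = x j ∧ x ∈ P}) ∪
        (MM ∩ ((⋃ e ∈ Set.Iio α0, {x | (Fin.snoc (α := fun _ => E) x e : Fin (n + 2) → E) ∈ W}) ∪
          (⋃ i : Fin (n + 1), {x | (Fin.snoc (α := fun _ => E) x (x i) : Fin (n + 2) → E) ∈ W}) ∪
          QS)) := by
      ext x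
      constructor
      · intro hx
        by_cases h1 : ∃ i, x i < α0
        · obtain ⟨i, hi⟩ := h1
          left; left
          exact mem_iUnion.2 ⟨i, mem_iUnion₂.2 ⟨x i, hi, rfl, hx⟩⟩
        · push Not at h1
          by_cases h2 : Function.Injective x
          · right
            refine ⟨⟨h2, h1⟩, ?_⟩
            obtain ⟨y, hy⟩ := hx
            by_cases h3 : y < α0
            · left; left
              exact mem_iUnion₂.2 ⟨y, h3, hy⟩
            · by_cases h4 : ∃ i, x i = y
              · obtain ⟨i, rfl⟩ := h4
                left; right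
                exact mem_iUnion.2 ⟨i, hy⟩
              · push Not at h4
                right
                exact (hmain x ⟨h2, h1⟩).1 ⟨y, not_lt.1 h3, h4, hy⟩
          · left; right
            unfold Function.Injective at h2
            push Not at h2
            obtain ⟨i, j, h3, h4⟩ := h2
            exact mem_iUnion.2 ⟨i, mem_iUnion₂.2 ⟨j, h4, h3, hx⟩⟩
      · rintro ((hx | hx) | ⟨hx, (hx' | hx') | hx'⟩)
        · obtain ⟨i, hx⟩ := mem_iUnion.1 hx
          obtain ⟨e, _, hx⟩ := mem_iUnion₂.1 hx
          exact hx.2
        · obtain ⟨i, hx⟩ := mem_iUnion.1 hx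
          obtain ⟨j, _, hx⟩ := mem_iUnion₂.1 hx
          exact hx.2
        · obtain ⟨e, _, h⟩ := mem_iUnion₂.1 hx'
          exact ⟨e, h⟩
        · obtain ⟨i, h⟩ := mem_iUnion.1 hx'
          exact ⟨x i, h⟩
        · obtain ⟨y, _, _, h⟩ := (hmain x hx).2 hx'
          exact ⟨y, h⟩
    have hsn1 : ∀ e : E, MeasurableSet
        {x : Fin (n + 1) → E | (Fin.snoc (α := fun _ => E) x e : Fin (n + 2) → E) ∈ W} := by
      intro e
      have h1 : Measurable (fun x : Fin (n + 1) → E =>
          (Fin.snoc (α := fun _ => E) x e : Fin (n + 2) → E)) := by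
        refine measurable_pi_iff.2 fun j => ?_
        refine Fin.lastCases ?_ (fun j => ?_) j
        · simp
        · simpa using measurable_pi_apply j
      exact h1 hW
    have hsn2 : ∀ i : Fin (n + 1), MeasurableSet
        {x : Fin (n + 1) → E | (Fin.snoc (α := fun _ => E) x (x i) : Fin (n + 2) → E) ∈ W} := by
      intro i
      have h1 : Measurable (fun x : Fin (n + 1) → E =>
          (Fin.snoc (α := fun _ => E) x (x i) : Fin (n + 2) → E)) := by
        refine measurable_pi_iff.2 fun j => ?_
        refine Fin.lastCases ?_ (fun j => ?_) j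
        · simpa using measurable_pi_apply i
        · simpa using measurable_pi_apply j
      exact h1 hW
    rw [hdecomp]
    refine ((MeasurableSet.iUnion fun i => MeasurableSet.biUnion hcIio fun e _ => hP1 i e).union
      (MeasurableSet.iUnion fun i => MeasurableSet.iUnion fun j => MeasurableSet.iUnion fun h =>
        hP2 i j h)).union (hMMm.inter (((MeasurableSet.biUnion hcIio fun e _ => hsn1 e).union
          (MeasurableSet.iUnion fun i => hsn2 i)).union hQSm))

/-- `X` has a code with bound at most `γ` -/
def Sys.Coded (γ : Ordinal.{0}) (X : Set E) : Prop :=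
  ∃ c : Code 1, c.gam ≤ γ ∧ ∀ x, x ∈ X ↔ c.eval (fun _ => S.g x)

/-- There are measurable sets without codes with small bound. -/
theorem Sys.high (γ : Ordinal.{0}) (hγ : γ < ω₁) (hγ2 : 2 ≤ γ) :
    ¬ S.Coded γ {x | S.g x [0] ≤ γ} := by
  classical
  rintro ⟨c, hcγ, hc⟩
  obtain ⟨z, hz⟩ := S.cdx 1 c
  have hadd : ∀ {a b : Ordinal.{0}}, a < ω₁ → b < ω₁ → a + b < ω₁ := fun ha hb =>
    Ordinal.isPrincipal_add_omega 1 ha hb
  have hnat : ∀ k : ℕ, (k : Ordinal.{0}) < ω₁ := fun k =>
    (Ordinal.natCast_lt_omega0 k).trans Ordinal.omega0_lt_omega_one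
  have hγ1 : γ < γ + 1 := Order.lt_add_one_iff.2 le_rfl
  have hγ12 : γ + 1 < γ + 2 := by
    rw [← one_add_one_eq_two, ← add_assoc]; exact Order.lt_add_one_iff.2 le_rfl
  have htr : ∀ x, z ≤ x → ((x ∈ {x | S.g x [0] ≤ γ}) ↔
      ∃ p : Fin 1 → Cond, (∀ i, p i ∈ GG (S.g x)) ∧ Forces c p) := by
    intro x hx
    rw [hc]
    refine truth (fun i => (S.good _).dec) c ?_
    exact hz (fun _ => x) (fun a b _ => Subsingleton.elim a b) (fun _ => hx)
  -- the first condition
  have hnil : Cond.nil [] ≤ γ + 2 := by rw [Cond.nil_apply]; exact bot_le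
  let q0 : Cond := raise Cond.nil (γ + 2) hnil
  have hq0r : q0 [] = γ + 2 := raise_root _ _ _
  have hq00 : q0 [0] = 0 := by
    rw [show q0 = raise Cond.nil (γ + 2) hnil from rfl, raise_ne _ _ _ (by simp)]
    rfl
  let q : Cond := addNode q0 0 [] γ hq00 (by rw [hq0r]; exact hγ1.trans hγ12)
  have hq0 : q [0] = γ := addNode_self _ _ _ _ _ _
  have hqr : q [] = γ + 2 := by
    rw [← hq0r]
    refine addNode_le q0 0 [] γ hq00 (by rw [hq0r]; exact hγ1.trans hγ12) [] ?_
    rw [hq0r]
    intro h
    have h1 : γ + 2 ≤ 0 := h.le
    exact absurd ((hγ2.trans le_self_add).trans h1) (by simp)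
  have hγ0 : γ ≠ 0 := fun h => by rw [h] at hγ2; exact absurd hγ2 (by simp)
  obtain ⟨x, hx1, hx2, hx3⟩ := S.real q (fun s => (le_root q s).trans_lt (by
    rw [hqr]; exact hadd hγ (by simpa using hnat 2))) z
  have hx0 : S.g x [0] = γ := by
    rw [hx2 [0] (by simp) (by rw [hq0]; exact hγ0), hq0]
  obtain ⟨p, hp, hF⟩ := (htr x hx1.le).1 (show S.g x [0] ≤ γ from hx0.le)
  obtain ⟨p1, hp1, hp1'⟩ := exists_mem_apply (S.good x).dec [0]
  obtain ⟨r, hr1, hr2, hr3⟩ := GG.common (S.good x).dec (hp 0) hp1
  have hr0 : r [0] = γ := by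
    have h1 : p1 [0] ≠ 0 := by rw [hp1', hx0]; exact hγ0
    rw [hr3 [0] h1, hp1', hx0]
  have hFr : Forces c (fun _ => r) := hF.mono (fun i => by
    rw [show i = 0 from Subsingleton.elim _ _]; exact hr2)
  have hrr : γ + 2 ≤ r [] := by
    have h1 : r [] ≠ 0 := by
      intro h0
      have := r.dec' 0 [] (by rw [hr0]; exact hγ0)
      rw [h0] at this
      exact absurd this (not_lt.2 bot_le)
    rw [hr1 [] h1, ← hqr]
    exact hx3
  -- the modified condition
  let r2 : Cond := ⟨r.f.update [0] (γ + 1), by
    intro m s hs
    rw [Finsupp.coe_update] at hs ⊢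
    by_cases h1 : m :: s = [0]
    · have h2 : s = [] := (List.cons.inj h1).2
      have h3 : ([] : List ℕ) ≠ [0] := by simp
      rw [h1, h2, Function.update_self, Function.update_of_ne h3]
      exact hγ12.trans_le hrr
    · rw [Function.update_of_ne h1] at hs ⊢
      have h2 := r.dec m s hs
      by_cases h3 : s = [0]
      · subst h3
        rw [Function.update_self]
        rw [show r.f [0] = γ from hr0] at h2
        exact h2.trans hγ1
      · rw [Function.update_of_ne h3]
        exact h2⟩
  have hr2a : ∀ s, r2 s = if s = [0] then γ + 1 else r s := by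
    intro s
    change (r.f.update [0] (γ + 1)) s = _
    rw [Finsupp.coe_update]
    by_cases hs : s = [0]
    · rw [if_pos hs, hs, Function.update_self]
    · rw [if_neg hs, Function.update_of_ne hs]
  have hEq : Cond.EqT γ r2 r := by
    intro s hs
    rw [hr2a] at hs ⊢
    by_cases h1 : s = [0]
    · exfalso
      rw [if_pos h1, h1, hr0] at hs
      rcases hs with hs | hs
      · exact absurd hs (not_lt.2 hγ1.le)
      · exact absurd hs (lt_irrefl _)
    · rw [if_neg h1]
  have hF2 : Forces c (fun _ => r2) := (retag c (fun _ => hEq.mono hcγ)).2 hFr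
  have hr2lt : ∀ s, r2 s < ω₁ := by
    intro s
    rw [hr2a]
    split_ifs
    · exact hadd hγ (by simpa using hnat 1)
    · by_cases h0 : r s = 0
      · rw [h0]; exact (hnat 0).trans_le' (by simp)
      · rw [hr1 s h0]
        refine lt_of_le_of_lt ?_ (S.root_lt x)
        have h1 := le_root r s
        have h2 : r [] ≠ 0 := fun h3 => by
          rw [h3] at hrr
          exact absurd ((hγ2.trans le_self_add).trans hrr) (by simp)
        rw [hr1 s h0, hr1 [] h2] at h1
        exact h1
  obtain ⟨x', hx'1, hx'2, hx'3⟩ := S.real r2 hr2lt z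
  have hx'0 : S.g x' [0] = γ + 1 := by
    have h1 : r2 [0] = γ + 1 := by rw [hr2a, if_pos rfl]
    have h2 : γ + 1 ≠ 0 := fun h => by
      have h3 : γ + 1 ≤ 0 := h.le
      exact absurd ((hγ2.trans le_self_add).trans h3) (by simp)
    rw [hx'2 [0] (by simp) (by rw [h1]; exact h2), h1]
  obtain ⟨p', hp'1, hp'2⟩ := exists_eqT (S.good x').dec (γ := γ) (p := r2) (by
    intro s hs0 hs
    by_cases hsn : s = []
    · subst hsn
      have h1 : r2 [] = r [] := by rw [hr2a, if_neg (by simp)]
      have h2 : γ ≤ r2 [] := by rw [h1]; exact (le_self_add).trans hrr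
      rcases hs with hs | hs
      · exact absurd hs (not_lt.2 h2)
      · exact absurd hs (not_lt.2 (h2.trans hx'3))
    · exact (hx'2 s hsn hs0).symm)
  have hF3 : Forces c (fun _ => p') := (retag c (fun _ => hp'2.mono hcγ)).2 hF2
  have h1 := (htr x' hx'1.le).2 ⟨fun _ => p', fun _ => hp'1, hF3⟩
  have h2 : S.g x' [0] ≤ γ := h1
  rw [hx'0] at h2
  exact absurd hγ1 (not_lt.2 h2)

end

end Pool.Agent.R591.UL
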