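import Pool.Agent.R591.UL.Gen

/-!
# The system under CH
-/

set_option autoImplicit false

namespace Pool.Agent.R591.UL

open Set Cardinal
open scoped Ordinal

/-- A system of generic trees indexed by `E`. -/
structure Sys (E : Type) [LinearOrder E] where
  g : E → List ℕ → Ordinal.{0}
  good : ∀ x, Good (g x)
  root_ne : ∀ x, g x [] ≠ 0
  root_lt : ∀ x, g x [] < ω₁
  cntI : ∀ x : E, (Iic x).Countable
  sep : ∀ x y, x ≠ y → ∃ s, ¬ (2 ≤ g x s ↔ 2 ≤ g y s)
  cdx : ∀ (n : ℕ) (c : Code n), ∃ z, ∀ x : Fin n → E, Function.Injective x → (∀ i, z ≤ x i) →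
    ∀ c' ∈ c.sub, ∃ p : Fin n → Cond, (∀ i, p i ∈ GG (g (x i))) ∧ Dec c' p
  big : ∀ γ < ω₁, ∃ z, ∀ x, z ≤ x → γ ≤ g x []
  real : ∀ p : Cond, (∀ s, p s < ω₁) → ∀ z, ∃ x, z < x ∧ (∀ s, s ≠ [] → p s ≠ 0 → g x s = p s) ∧
    p [] ≤ g x []

theorem countable_Iio' {l : Ordinal.{0}} (h : l < ω₁) : (Set.Iio l).Countable := by
  rw [← Cardinal.le_aleph0_iff_set_countable, Cardinal.mk_Iio_ordinal, Cardinal.lift_le_aleph0]
  have h1 : l.card < Cardinal.aleph 1 := (Cardinal.lt_omega_iff_card_lt).1 h
  rw [← Cardinal.succ_aleph0] at h1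
  exact Order.lt_succ_iff.1 h1

/-- an order of type `ω₁` -/
theorem exists_order (E : Type) (hE : #E = ℵ₁) :
    ∃ (_ : LinearOrder E), WellFoundedLT E ∧ ∀ x : E, (Iic x).Countable := by
  have h1 : #E = #((ℵ₁ : Cardinal.{0}).ord.ToType) := by rw [hE, Cardinal.mk_ord_toType]
  obtain ⟨e⟩ := Cardinal.eq.1 h1
  let I : LinearOrder E := LinearOrder.lift' e e.injective
  have hlt : ∀ a b : E, a < b ↔ e a < e b := fun a b => Iff.rfl
  have hwf : WellFoundedLT E := ⟨by
    have : (fun a b : E => a < b) = InvImage (· < ·) e := rfl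
    rw [this]
    exact InvImage.wf e wellFounded_lt⟩
  refine ⟨I, hwf, fun x => ?_⟩
  have h2 : (Set.Iio (e x)).Countable := by
    rw [← Cardinal.le_aleph0_iff_set_countable]
    have h3 : #(Set.Iio (e x)) < ℵ₁ := Cardinal.mk_Iio_toType_ord_lt (e x)
    have h5 : (ℵ₁ : Cardinal.{0}) = Order.succ ℵ₀ := Cardinal.succ_aleph0.symm
    exact Order.lt_succ_iff.1 (h3.trans_eq h5)
  have h4 : Iic x = {x} ∪ e ⁻¹' (Set.Iio (e x)) := by
    ext y
    constructor
    · intro hy
      rcases eq_or_lt_of_le (show y ≤ x from hy) with h | h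
      · left; exact h
      · right; exact h
    · rintro (h | h)
      · rw [show y = x from h]; exact le_refl x
      · exact le_of_lt (show y < x from h)
  rw [h4]
  exact (Set.countable_singleton x).union (h2.preimage e.injective)

/-- labelled tree of a code -/
def Code.lab {n : ℕ} : Code n → List ℕ → Option (Fin n × List ℕ)
  | .bit i s, _ => some (i, s)
  | .nun _, [] => none
  | .nun f, k :: l => (f k).lab l

theorem Code.lab_injective {n : ℕ} : Function.Injective (Code.lab (n := n)) := by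
  intro c
  induction c with
  | bit i s =>
    intro c' h
    cases c' with
    | bit i' s' =>
      have := congrFun h []
      simp only [Code.lab, Option.some.injEq, Prod.mk.injEq] at this
      rw [this.1, this.2]
    | nun f =>
      have := congrFun h []
      simp [Code.lab] at this
  | nun f ih =>
    intro c' h
    cases c' with
    | bit i' s' =>
      have := congrFun h []
      simp [Code.lab] at this
    | nun f' =>
      congr 1
      funext k
      apply ih k
      funext l
      have := congrFun h (k :: l)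
      simpa only [Code.lab] using this

theorem mk_code_le (n : ℕ) : #(Code n) ≤ 𝔠 := by
  refine (Cardinal.mk_le_of_injective Code.lab_injective).trans ?_
  rw [← Cardinal.power_def]
  have h1 : #(List ℕ) = ℵ₀ := Cardinal.mk_eq_aleph0 _
  have h2 : #(Option (Fin n × List ℕ)) ≤ ℵ₀ := Cardinal.mk_le_aleph0
  rw [h1]
  calc #(Option (Fin n × List ℕ)) ^ ℵ₀ ≤ ℵ₀ ^ ℵ₀ := Cardinal.power_le_power_right h2
    _ = 𝔠 := Cardinal.aleph0_power_aleph0

theorem mk_sigma_code : #(Σ n, Code n) ≤ 𝔠 := by
  rw [Cardinal.mk_sigma]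
  calc Cardinal.sum (fun n => #(Code n)) ≤ Cardinal.sum (fun _ : ℕ => 𝔠) :=
        Cardinal.sum_le_sum _ _ mk_code_le
    _ = ℵ₀ * 𝔠 := by rw [Cardinal.sum_const']; simp
    _ ≤ 𝔠 := by rw [Cardinal.aleph0_mul_continuum]

open Classical in
/-- raising the root -/
noncomputable def raise (p : Cond) (v : Ordinal.{0}) (h : p [] ≤ v) : Cond where
  f := p.f.update [] v
  dec := by
    intro m r hr
    rw [Finsupp.coe_update] at hr ⊢
    rw [Function.update_of_ne (List.cons_ne_nil m r)] at hr ⊢
    have h2 := p.dec m r hr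
    by_cases h3 : r = []
    · subst h3
      rw [Function.update_self]
      exact h2.trans_le h
    · rw [Function.update_of_ne h3]
      exact h2

theorem raise_root (p : Cond) (v : Ordinal.{0}) (h : p [] ≤ v) : raise p v h [] = v := by
  classical
  change (p.f.update [] v) [] = v
  rw [Finsupp.coe_update, Function.update_self]

theorem raise_ne (p : Cond) (v : Ordinal.{0}) (h : p [] ≤ v) {s : List ℕ} (hs : s ≠ []) :
    raise p v h s = p s := by
  classical
  change (p.f.update [] v) s = p.f s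
  rw [Finsupp.coe_update, Function.update_of_ne hs]

theorem exists_sys (CH : (𝔠 : Cardinal.{0}) = ℵ₁) (E : Type) (hE : #E = 𝔠) :
    ∃ (_ : LinearOrder E), WellFoundedLT E ∧ Nonempty (Sys E) := by
  have hE1 : #E = ℵ₁ := hE.trans CH
  obtain ⟨I, hwf, hcI⟩ := exists_order E hE1
  refine ⟨I, hwf, ?_⟩
  have hadd : ∀ {a b : Ordinal.{0}}, a < ω₁ → b < ω₁ → a + b < ω₁ := fun ha hb =>
    Ordinal.isPrincipal_add_omega 1 ha hb
  have hnat : ∀ k : ℕ, (k : Ordinal.{0}) < ω₁ := fun k =>
    (Ordinal.natCast_lt_omega0 k).trans Ordinal.omega0_lt_omega_one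
  have hunc : ¬ (Set.univ : Set E).Countable := by
    intro h
    have h1 : #E ≤ ℵ₀ := by
      rw [← Cardinal.mk_univ]
      exact Cardinal.le_aleph0_iff_set_countable.2 h
    rw [hE1] at h1
    exact absurd h1 (not_le.2 (by rw [← Cardinal.succ_aleph0]; exact Order.lt_succ _))
  have hinf : Infinite E := by
    rw [Cardinal.infinite_iff, hE1, ← Cardinal.succ_aleph0]
    exact (Order.lt_succ _).le
  have hNE : Nonempty E := inferInstance
  -- index
  let idx : E → Ordinal.{0} := fun x => Ordinal.typein (α := E) (· < ·) x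
  have hidx_inj : Function.Injective idx := Ordinal.typein_injective _
  have hidx_mono : ∀ x y : E, x ≤ y → idx x ≤ idx y := by
    intro x y h
    rcases h.eq_or_lt with h | h
    · rw [h]
    · exact ((Ordinal.typein_lt_typein (α := E) (· < ·)).2 h).le
  have hidx_lt : ∀ x, idx x < ω₁ := by
    intro x
    rw [Cardinal.lt_omega_iff_card_lt, ← Cardinal.succ_aleph0, Order.lt_succ_iff]
    have h1 : (idx x).card = #{y : E // y < x} := by
      exact (Ordinal.card_typein (r := ((· < ·) : E → E → Prop)) x).symm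
    rw [h1]
    have h2 : (Set.Iio x).Countable := (hcI x).mono Iio_subset_Iic_self
    exact Cardinal.le_aleph0_iff_set_countable.2 h2
  have hidx_big : ∀ γ < ω₁, ∃ z, γ ≤ idx z := by
    intro γ hγ
    by_contra hc
    push Not at hc
    apply hunc
    refine Set.MapsTo.countable_of_injOn (f := idx) (t := Set.Iio γ) (fun x _ => hc x)
      hidx_inj.injOn (countable_Iio' hγ)
  -- enumeration of the conditions
  have hK : ∀ e : E, ∃ k : ℕ → Cond, Set.range k = {p : Cond | ∀ s, p s < idx e + 1} := by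
    intro e
    have h1 : {p : Cond | ∀ s, p s < idx e + 1}.Countable :=
      Cond.countable_lt (hadd (hidx_lt e) (by simpa using hnat 1))
    have h2 : {p : Cond | ∀ s, p s < idx e + 1}.Nonempty :=
      ⟨Cond.nil, fun s => by rw [Cond.nil_apply]; exact Order.lt_add_one_iff.2 bot_le⟩
    obtain ⟨k, hk⟩ := h1.exists_eq_range h2
    exact ⟨k, hk.symm⟩
  choose kk hkk using hK
  have hB : ∃ B : E → E × ℕ × E, Function.Surjective B := by
    have h1 : #(E × ℕ × E) ≤ #E := by
      rw [Cardinal.mk_prod, Cardinal.mk_prod]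
      simp only [Cardinal.lift_id, Cardinal.lift_uzero, Cardinal.mk_nat, hE]
      rw [Cardinal.aleph0_mul_continuum, Cardinal.continuum_mul_self]
    obtain ⟨f⟩ := (Cardinal.le_def _ _).1 h1
    exact ⟨Function.invFun f, Function.invFun_surjective f.injective⟩
  obtain ⟨B, hB⟩ := hB
  let base : E → Cond := fun x => kk (B x).1 (B x).2.1
  have hbase_lt : ∀ x s, base x s < ω₁ := by
    intro x s
    have h1 : base x ∈ {p : Cond | ∀ s, p s < idx (B x).1 + 1} := by
      rw [← hkk]; exact ⟨_, rfl⟩
    exact (h1 s).trans (hadd (hidx_lt _) (by simpa using hnat 1))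
  have hbase : ∀ p : Cond, (∀ s, p s < ω₁) → ¬ {x | base x = p}.Countable := by
    intro p hp hcount
    obtain ⟨e, he⟩ := hidx_big (p []) (hp [])
    have h1 : p ∈ Set.range (kk e) := by
      rw [hkk]
      exact fun s => Order.lt_add_one_iff.2 ((le_root p s).trans he)
    obtain ⟨m, hm⟩ := h1
    apply hunc
    have h2 : (Set.univ : Set E) ⊆ (fun x => (B x).2.2) '' {x | base x = p} := by
      intro e' _
      obtain ⟨x, hx⟩ := hB (e, m, e')
      refine ⟨x, ?_, by simp only [hx]⟩
      simp only [mem_ofPred_eq, base, hx, hm]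
    exact (hcount.image _).mono h2
  -- enumeration of the codes
  have hC : ∃ cd : E → Σ n, Code n, Function.Surjective cd := by
    have h1 : #(Σ n, Code n) ≤ #E := by rw [hE]; exact mk_sigma_code
    obtain ⟨f⟩ := (Cardinal.le_def _ _).1 h1
    have : Nonempty (Σ n, Code n) := ⟨⟨1, Code.bit 0 []⟩⟩
    exact ⟨Function.invFun f, Function.invFun_surjective f.injective⟩
  obtain ⟨cd, hcd⟩ := hC
  choose F hF1 hF2 using fun z => exists_fam (cd z).2
  let start : E → Cond := fun x => raise (base x) (max (base x []) (idx x) + 3)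
    ((le_max_left _ _).trans le_self_add)
  have hst_root : ∀ x, start x [] = max (base x []) (idx x) + 3 := fun x => raise_root _ _ _
  obtain ⟨g, hg1, hg2, hg3, hg4, hg5⟩ := main_rec hcI F (fun z => (cd z).2.gam + ω) hF1 start
    (fun x => by rw [hst_root]; exact le_add_self) (fun x => by
      rw [hst_root]
      exact hadd (max_lt (hbase_lt x []) (hidx_lt x)) (by simpa using hnat 3))
  refine ⟨⟨g, hg1, ?_, ?_, hcI, ?_, ?_, ?_, ?_⟩⟩
  · intro x
    rw [hg3, hst_root]
    have : (0 : Ordinal.{0}) < max (base x []) (idx x) + 3 :=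
      lt_of_lt_of_le (by norm_num) (le_add_self : (3 : Ordinal.{0}) ≤ _)
    exact this.ne'
  · intro x
    rw [hg3, hst_root]
    exact hadd (max_lt (hbase_lt x []) (hidx_lt x)) (by simpa using hnat 3)
  · intro x y hxy
    rcases lt_or_gt_of_ne hxy with h | h
    · obtain ⟨s, hs⟩ := hg4 y x h
      exact ⟨s, fun h2 => hs h2.symm⟩
    · exact hg4 x y h
  · intro n c
    obtain ⟨z, hz⟩ := hcd ⟨n, c⟩
    refine ⟨z, fun x hx hzx c' hc' => ?_⟩
    have h1 : (⟨n, Dec c'⟩ : Req) ∈ F z := by
      have := hF2 z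
      rw [hz] at this
      exact this c' hc'
    exact hg5 z ⟨n, Dec c'⟩ h1 x hx hzx
  · intro γ hγ
    obtain ⟨z, hz⟩ := hidx_big γ hγ
    refine ⟨z, fun x hx => ?_⟩
    rw [hg3, hst_root]
    exact hz.trans ((hidx_mono z x hx).trans ((le_max_right _ _).trans le_self_add))
  · intro p hp z
    have h1 : ∃ x, base x = p ∧ z < x := by
      by_contra hc
      push Not at hc
      exact hbase p hp ((hcI z).mono fun x hx => hc x hx)
    obtain ⟨x, hx, hzx⟩ := h1
    refine ⟨x, hzx, ?_, ?_⟩
    · intro s hs hps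
      have h2 : start x s = p s := by
        rw [← hx]; exact raise_ne _ _ _ hs
      rw [← h2]
      exact (hg2 x s (by rw [h2]; exact hps)).symm
    · rw [hg3, hst_root, hx]
      exact (le_max_left _ _).trans le_self_add

end Pool.Agent.R591.UL
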